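import Pool.Agent.R686.CG.Defs

/-! Piece P: the predicates. -/

namespace R686CG

section Pc

theorem SqF_nil {α : Type} : SqF ([] : List α) := by
  intro x y z h
  have h1 := congrArg List.length h
  simp only [List.length_nil, List.length_append] at h1
  exact List.length_eq_zero_iff.1 (by omega)

theorem SqF.left {α : Type} {u v : List α} (h : SqF (u ++ v)) : SqF u := by
  intro x y z e
  exact h x y (z ++ v) (by rw [e]; simp)

theorem SqF.right {α : Type} {u v : List α} (h : SqF (u ++ v)) : SqF v := by
  intro x y z e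
  exact h (u ++ x) y z (by rw [e]; simp)

theorem SqF.map {α β : Type} {f : α → β} (hf : Function.Injective f) {u : List α} (h : SqF u) :
    SqF (u.map f) := by
  intro x y z e
  obtain ⟨x', u1, hu, -, e1⟩ := List.map_eq_append_iff.1 e
  obtain ⟨y', u2, hu1, hy, e2⟩ := List.map_eq_append_iff.1 e1
  obtain ⟨y'', z', hu2, hy', -⟩ := List.map_eq_append_iff.1 e2
  have hyy : y' = y'' := List.map_injective_iff.2 hf (hy.trans hy'.symm)
  have := h x' y' z' (by rw [hu, hu1, hu2, hyy])
  rw [← hy, this]
  rfl

theorem PP_nil (m : ℕ) : PP m [] := ⟨[], SqF_nil, by simp, Or.inl (by simp)⟩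

theorem PR_nil (m : ℕ) : PR m [] := PP_nil m

theorem PP_pref (m : ℕ) : PrefCl (PP m) := by
  rintro u v ⟨v0, hv, hl, h | h⟩
  · obtain ⟨a, b, hab, ha, -⟩ := List.map_eq_append_iff.1 h.symm
    subst hab
    refine ⟨a, hv.left, ?_, Or.inl ha.symm⟩
    rw [List.length_append] at hl
    omega
  · cases u with
    | nil => exact PP_nil m
    | cons c u' =>
      rw [List.cons_append, List.cons.injEq] at h
      obtain ⟨h0, h⟩ := h
      obtain ⟨a, b, hab, ha, -⟩ := List.map_eq_append_iff.1 h.symm
      subst hab
      refine ⟨a, hv.left, ?_, Or.inr (by rw [h0, ha])⟩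
      rw [List.length_append] at hl
      omega

theorem PP_suf (m : ℕ) : SufCl (PP m) := by
  rintro u v ⟨v0, hv, hl, h | h⟩
  · obtain ⟨a, b, hab, -, hb⟩ := List.map_eq_append_iff.1 h.symm
    subst hab
    refine ⟨b, hv.right, ?_, Or.inl hb.symm⟩
    rw [List.length_append] at hl
    omega
  · cases u with
    | nil => exact ⟨v0, hv, hl, Or.inr h⟩
    | cons c u' =>
      rw [List.cons_append, List.cons.injEq] at h
      obtain ⟨h0, h⟩ := h
      obtain ⟨a, b, hab, -, hb⟩ := List.map_eq_append_iff.1 h.symm
      subst hab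
      refine ⟨b, hv.right, ?_, Or.inl hb.symm⟩
      rw [List.length_append] at hl
      omega

theorem PR_pref (m : ℕ) : PrefCl (PR m) := by
  intro u v h
  unfold PR at *
  rw [List.reverse_append] at h
  exact PP_suf m _ _ h

theorem PR_suf (m : ℕ) : SufCl (PR m) := by
  intro u v h
  unfold PR at *
  rw [List.reverse_append] at h
  exact PP_pref m _ _ h

theorem PP_SqF {m : ℕ} {w : List Lt} (h : PP m w) : SqF w := by
  obtain ⟨v, hv, -, h | h⟩ := h
  · rw [h]
    exact hv.map (Option.some_injective _)
  · intro x y z e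
    rw [h] at e
    cases x with
    | nil =>
      cases y with
      | nil => rfl
      | cons c y' =>
        exfalso
        simp only [List.nil_append, List.cons_append, List.cons.injEq] at e
        obtain ⟨h0, e⟩ := e
        have h1 : (none : Lt) ∈ v.map some := by
          rw [e, ← h0]
          simp
        simp at h1
    | cons c x' =>
      rw [List.cons_append, List.cons.injEq] at e
      exact hv.map (Option.some_injective _) x' y z e.2

theorem PP_len {m : ℕ} {w : List Lt} (h : PP m w) : w.length ≤ m + 1 := by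
  obtain ⟨v, -, hl, h | h⟩ := h
  · rw [h, List.length_map]
    omega
  · rw [h, List.length_cons, List.length_map]
    omega

theorem QQ_PP {m : ℕ} {w : List Lt} (h : QQ m w) : PP m w := by
  obtain ⟨v, hv, hl, h⟩ := h
  exact ⟨v, hv, hl.le, Or.inr h⟩

theorem not_PP_cn (m : ℕ) (c : Lt) (r : List Lt) : ¬ PP m (c :: none :: r) := by
  rintro ⟨v, -, -, h | h⟩
  · have h1 : (none : Lt) ∈ v.map some := by
      rw [← h]
      simp
    simp at h1
  · rw [List.cons.injEq] at h
    have h1 : (none : Lt) ∈ v.map some := by
      rw [← h.2]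
      simp
    simp at h1

theorem PP_fin (m : ℕ) : {w : List Lt | PP m w}.Finite :=
  (List.finite_length_le Lt (m + 1)).subset fun _ h => PP_len h

theorem VV_fin (m : ℕ) : (VV m).Finite :=
  (List.finite_length_le (Fin 4) m).subset fun _ h => h.2.le

end Pc

end R686CG
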