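import Pool.Agent.R686.CG.Trunc
import Pool.Agent.R686.CG.PCl

/-! Piece A: the actions -/

set_option autoImplicit false

namespace R686CG

section A
variable (m : ℕ) (F : Bool → List (Fin 4) → ℕ)

theorem redOpt_map_some (v : List (Fin 4)) : (v.map some).reduceOption = v := by
  induction v with
  | nil => rfl
  | cons a v ih => rw [List.map_cons, List.reduceOption_cons_of_some, ih]

theorem not_good_none {m : ℕ} {u : List Lt} :
    ¬ ∃ v : List (Fin 4), SqF v ∧ v.length ≤ m ∧ (none :: u : List Lt) = v.map some := by
  rintro ⟨v, -, -, h⟩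
  cases v with
  | nil => cases h
  | cons a v =>
    rw [List.map_cons] at h
    cases (List.cons.inj h).1

theorem nf_none (u : List Lt) : nf m F u none = X.rc (tr (PP m) u) := rfl

theorem nf_pt {v : List (Fin 4)} (h : SqF v) (hl : v.length ≤ m) (p : Bool) :
    nf m F (v.map some) (some p) = X.pt v p := by
  unfold nf; dsimp only
  rw [if_pos ⟨v, h, hl, rfl⟩, redOpt_map_some]

theorem nf_fn {v : List (Fin 4)} (h : SqF v) (hl : v.length = m) (p : Bool) :
    nf m F (none :: v.map some) (some p) = X.fn p (F p v) := by
  unfold nf; dsimp only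
  rw [if_neg not_good_none, if_pos ⟨v, h, hl, rfl⟩, List.reduceOption_cons_of_none, redOpt_map_some]

theorem nf_rc {u : List Lt} (h1 : ¬ ∃ v : List (Fin 4), SqF v ∧ v.length ≤ m ∧ u = v.map some)
    (h2 : ¬ QQ m u) (t : Option Bool) : nf m F u t = X.rc (tr (PP m) u) := by
  cases t with
  | none => rfl
  | some p =>
    unfold nf; dsimp only
    rw [if_neg h1, if_neg h2]

theorem nf_short {v : List (Fin 4)} (h : SqF v) (hl : v.length < m) (p : Bool) :
    nf m F (none :: v.map some) (some p) = X.rc (none :: v.map some) := by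
  rw [nf_rc m F not_good_none, tr_of (PP_pref m) ⟨v, h, hl.le, Or.inr rfl⟩]
  rintro ⟨v', -, h2, h3⟩
  have h4 := congrArg List.length (List.cons.inj h3).2
  rw [List.length_map, List.length_map] at h4
  omega

theorem nf_not {u : List Lt} (h : ¬ PP m u) (t : Option Bool) :
    nf m F u t = X.rc (tr (PP m) u) := by
  apply nf_rc
  · rintro ⟨v, h1, h2, h3⟩
    exact h ⟨v, h1, h2, Or.inl h3⟩
  · exact fun h1 => h (QQ_PP h1)

theorem nf_step (c : Lt) (u : List Lt) (t : Option Bool) :
    nf m F (c :: rep (nf m F u t)) (tg (nf m F u t)) = nf m F (c :: u) t := by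
  cases t with
  | none =>
    rw [nf_none, nf_none]
    change nf m F (c :: tr (PP m) u) none = _
    rw [nf_none, tr_cons_tr (PP_pref m) (PP_suf m)]
  | some p =>
    by_cases h1 : ∃ v : List (Fin 4), SqF v ∧ v.length ≤ m ∧ u = v.map some
    · obtain ⟨v, hv, hl, rfl⟩ := h1
      rw [nf_pt m F hv hl]
      rfl
    · by_cases h2 : QQ m u
      · obtain ⟨v, hv, hl, rfl⟩ := h2
        rw [nf_fn m F hv hl]
        change nf m F (c :: [none]) none = _
        rw [nf_none, nf_not m F (not_PP_cn m c _)]
        rw [show (c :: none :: v.map some : List Lt) = [c, none] ++ v.map some from rfl,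
          tr_append (PP_pref m) (not_PP_cn m c [])]
      · rw [nf_rc m F h1 h2]
        change nf m F (c :: tr (PP m) u) none = _
        rw [nf_none, tr_cons_tr (PP_pref m) (PP_suf m), nf_rc m F]
        · rintro ⟨v, hv, hl, h3⟩
          cases v with
          | nil => cases h3
          | cons a v =>
            rw [List.map_cons] at h3
            refine h1 ⟨v, SqF.right (u := [a]) hv, ?_, (List.cons.inj h3).2⟩
            rw [List.length_cons] at hl
            omega
        · rintro ⟨v, hv, hl, h3⟩
          exact h1 ⟨v, hv, hl.le, (List.cons.inj h3).2⟩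

theorem W_nil : W m F [] = 1 := rfl

theorem W_append (u v : List Lt) : W m F (u ++ v) = W m F u * W m F v := by
  unfold W
  rw [List.map_append, List.prod_append]

theorem W_cons (c : Lt) (v : List Lt) : W m F (c :: v) = ell m F c * W m F v := by
  unfold W
  rw [List.map_cons, List.prod_cons]

theorem W_f_nf (v u : List Lt) (t : Option Bool) :
    (W m F v).f (nf m F u t) = nf m F (v ++ u) t := by
  induction v with
  | nil => rfl
  | cons c v ih =>
    rw [W_cons, mul_f, ih]
    exact nf_step m F c (v ++ u) t

theorem W_f {v : List Lt} (hv : v ≠ []) (x : X) :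
    (W m F v).f x = nf m F (v ++ rep x) (tg x) := by
  induction v using List.reverseRecOn with
  | nil => exact absurd rfl hv
  | append_singleton v c ih =>
    rw [W_append, mul_f]
    have h1 : (W m F [c]).f x = nf m F (c :: rep x) (tg x) := by
      rw [W_cons, W_nil, mul_one]
      rfl
    rw [h1, W_f_nf, List.append_assoc]
    rfl

theorem W_h_tr (v r : List Lt) :
    (W m F v).h (tr (PR m) r) = tr (PR m) (v.reverse ++ r) := by
  induction v generalizing r with
  | nil => rfl
  | cons c v ih =>
    rw [W_cons, mul_h]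
    have h1 : (ell m F c).h (tr (PR m) r) = tr (PR m) (c :: r) :=
      tr_cons_tr (PR_pref m) (PR_suf m) c r
    rw [h1, ih, List.reverse_cons, List.append_assoc]
    rfl

theorem W_h {v : List Lt} (hv : v ≠ []) (r : List Lt) :
    (W m F v).h r = tr (PR m) (v.reverse ++ r) := by
  cases v with
  | nil => exact absurd rfl hv
  | cons c v =>
    rw [W_cons, mul_h]
    change (W m F v).h (tr (PR m) (c :: r)) = _
    rw [W_h_tr, List.reverse_cons, List.append_assoc]
    rfl

theorem W_not {v : List Lt} (hv : ¬ PP m v) :
    W m F v = kk (X.rc (tr (PP m) v)) (tr (PR m) v.reverse) := by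
  have hv0 : v ≠ [] := by
    rintro rfl
    exact hv (PP_nil m)
  apply M.ext
  · funext x
    rw [W_f m F hv0, nf_not m F (fun h => hv (PP_pref m _ _ h)), tr_append (PP_pref m) hv]
    rfl
  · funext r
    have h1 : ¬ PR m v.reverse := by
      intro h
      apply hv
      have h2 : PP m v.reverse.reverse := h
      rwa [List.reverse_reverse] at h2
    rw [W_h m F hv0, tr_append (PR_pref m) h1]
    rfl

theorem kk_mul (x : X) (r : List Lt) (s : M) : kk x r * s = kk x (s.h r) := rfl

theorem mul_kk (x : X) (r : List Lt) (s : M) : s * kk x r = kk (s.f x) r := rfl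

theorem nf_nil_some (p : Bool) : nf m F [] (some p) = X.pt [] p :=
  nf_pt m F (v := []) SqF_nil (Nat.zero_le _) p

theorem tr_nil {α : Type} (P : List α → Prop) : tr P [] = [] := rfl

theorem dWd_Q {z : List Lt} (hz : QQ m z) : dd * W m F z * dd = dd := by
  apply M.ext
  · funext x
    rw [mul_f, mul_f]
    obtain ⟨v, hv, hl, rfl⟩ := hz
    cases x with
    | fn p i =>
      change dd.f ((W m F _).f (X.pt [] p)) = X.pt [] p
      rw [← nf_nil_some m F p, W_f_nf, List.append_nil, nf_fn m F hv hl, nf_nil_some]
      rfl
    | rc r =>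
      change dd.f ((W m F _).f (nf m F [] none)) = X.rc []
      rw [W_f_nf]
      rfl
    | pt w p =>
      change dd.f ((W m F _).f (nf m F [] none)) = X.rc []
      rw [W_f_nf]
      rfl
  · rfl

theorem dWd_not {z : List Lt} (hz : ¬ QQ m z) : dd * W m F z * dd = kk (X.rc []) [] := by
  have key : ∀ t, dd.f (nf m F z t) = X.rc [] := by
    intro t
    by_cases h1 : ∃ v : List (Fin 4), SqF v ∧ v.length ≤ m ∧ z = v.map some
    · cases t with
      | none => rfl
      | some p =>
        obtain ⟨v, hv, hl, rfl⟩ := h1
        rw [nf_pt m F hv hl]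
        rfl
    · rw [nf_rc m F h1 hz]
      rfl
  apply M.ext
  · funext x
    rw [mul_f, mul_f]
    cases x with
    | fn p i =>
      change dd.f ((W m F _).f (X.pt [] p)) = X.rc []
      rw [← nf_nil_some m F p, W_f_nf, List.append_nil, key]
    | rc r =>
      change dd.f ((W m F _).f (nf m F [] none)) = X.rc []
      rw [W_f_nf]
      rfl
    | pt w p =>
      change dd.f ((W m F _).f (nf m F [] none)) = X.rc []
      rw [W_f_nf]
      rfl
  · rfl

end A

end R686CG
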