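import Pool.Agent.R686.CG.Trunc
import Pool.Agent.R686.CG.PCl
import Pool.Agent.R686.CG.Act

namespace R686CG

/-! ## Piece C : classification and finiteness -/
section C
variable (m : ℕ) (F : Bool → List (Fin 4) → ℕ)

/-- the three types -/
def ClassAux (s : M) : Prop :=
    (∃ v, v ≠ [] ∧ PP m v ∧ s = W m F v) ∨
    (∃ w w', PP m w ∧ PP m w' ∧ s = D m F w w') ∨ (∃ x r, s = kk x r)

theorem classAux_W {v : List Lt} (hv : v ≠ []) : ClassAux m F (W m F v) := by
  by_cases h : PP m v
  · exact Or.inl ⟨v, hv, h, rfl⟩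
  · exact Or.inr (Or.inr ⟨_, _, W_not m F h⟩)

theorem classAux_D (w w' : List Lt) : ClassAux m F (D m F w w') := by
  by_cases h : PP m w
  · by_cases h' : PP m w'
    · exact Or.inr (Or.inl ⟨w, w', h, h', rfl⟩)
    · refine Or.inr (Or.inr ⟨(W m F w * dd).f (X.rc (tr (PP m) w')), tr (PR m) w'.reverse, ?_⟩)
      rw [D, W_not m F h', mul_kk]
  · refine Or.inr (Or.inr ⟨X.rc (tr (PP m) w), (W m F w').h (dd.h (tr (PR m) w.reverse)), ?_⟩)
    rw [D, W_not m F h, kk_mul, kk_mul]

theorem ell_eq (c : Lt) : ell m F c = W m F [c] := by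
  simp [W]

theorem dd_eq : dd = D m F [] [] := by
  rw [D, W_nil, one_mul, mul_one]

theorem classAux_mul {s t : M} (hs : ClassAux m F s) (ht : ClassAux m F t) :
    ClassAux m F (s * t) := by
  rcases hs with ⟨v, hv, _, rfl⟩ | ⟨w, w', _, _, rfl⟩ | ⟨x, r, rfl⟩
  · rcases ht with ⟨u, hu, _, rfl⟩ | ⟨u, u', _, _, rfl⟩ | ⟨y, q, rfl⟩
    · rw [← W_append]
      exact classAux_W m F (by simp [hv])
    · have : W m F v * D m F u u' = D m F (v ++ u) u' := by
        simp only [D, W_append, mul_assoc]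
      rw [this]
      exact classAux_D m F _ _
    · rw [mul_kk]
      exact Or.inr (Or.inr ⟨_, _, rfl⟩)
  · rcases ht with ⟨u, hu, _, rfl⟩ | ⟨u, u', _, _, rfl⟩ | ⟨y, q, rfl⟩
    · have : D m F w w' * W m F u = D m F w (w' ++ u) := by
        simp only [D, W_append, mul_assoc]
      rw [this]
      exact classAux_D m F _ _
    · have : D m F w w' * D m F u u' = W m F w * (dd * W m F (w' ++ u) * dd) * W m F u' := by
        simp only [D, W_append, mul_assoc]
      rw [this]
      by_cases h : QQ m (w' ++ u)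
      · rw [dWd_Q m F h]
        exact classAux_D m F w u'
      · rw [dWd_not m F h, mul_kk, kk_mul]
        exact Or.inr (Or.inr ⟨_, _, rfl⟩)
    · rw [mul_kk]
      exact Or.inr (Or.inr ⟨_, _, rfl⟩)
  · rw [kk_mul]
    exact Or.inr (Or.inr ⟨_, _, rfl⟩)

theorem classify {s : M} (hs : s ∈ SS m F) :
    (∃ v, v ≠ [] ∧ PP m v ∧ s = W m F v) ∨
    (∃ w w', PP m w ∧ PP m w' ∧ s = D m F w w') ∨ (∃ x r, s = kk x r) := by
  change ClassAux m F s
  unfold SS at hs
  induction hs using Subsemigroup.closure_induction with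
  | mem x hx =>
    rcases hx with ⟨c, rfl⟩ | hx
    · rw [ell_eq]
      exact classAux_W m F (by simp)
    · rcases hx with rfl | rfl | rfl
      · rw [dd_eq m F]
        exact classAux_D m F _ _
      · exact Or.inr (Or.inr ⟨_, _, rfl⟩)
      · exact Or.inr (Or.inr ⟨_, _, rfl⟩)
  | mul x y _ _ hx hy => exact classAux_mul m F hx hy

theorem ell_mem (c : Lt) : ell m F c ∈ SS m F :=
  Subsemigroup.subset_closure (Or.inl ⟨c, rfl⟩)

theorem dd_mem : dd ∈ SS m F :=
  Subsemigroup.subset_closure (Or.inr (Or.inl rfl))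

theorem W_mem {v : List Lt} (hv : v ≠ []) : W m F v ∈ SS m F := by
  induction v with
  | nil => exact absurd rfl hv
  | cons c v ih =>
    have h1 : W m F (c :: v) = ell m F c * W m F v := by simp [W]
    rcases v with _ | ⟨c', v⟩
    · rw [← ell_eq]
      exact ell_mem m F c
    · rw [h1]
      exact mul_mem (ell_mem m F c) (ih (by simp))

theorem D_mem (w w' : List Lt) : D m F w w' ∈ SS m F := by
  unfold D
  have h1 : W m F w * dd ∈ SS m F := by
    rcases w with _ | ⟨c, w⟩
    · rw [W_nil, one_mul]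
      exact dd_mem m F
    · exact mul_mem (W_mem m F (by simp)) (dd_mem m F)
  rcases w' with _ | ⟨c, w'⟩
  · rw [W_nil, mul_one]
    exact h1
  · exact mul_mem h1 (W_mem m F (by simp))

/-- the finite set of values of `f` -/
def XFin : Set X :=
  (X.rc '' {r : List Lt | r.length ≤ m + 2}) ∪
    ((fun q : List (Fin 4) × Bool => X.pt q.1 q.2) '' ({v | v.length ≤ m} ×ˢ Set.univ)) ∪
    ((fun q : List (Fin 4) × Bool => X.fn q.2 (F q.2 q.1)) '' (VV m ×ˢ Set.univ))

theorem XFin_finite : (XFin m F).Finite := by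
  refine ((Set.Finite.image _ (List.finite_length_le _ _)).union
    (Set.Finite.image _ ?_)).union (Set.Finite.image _ ?_)
  · exact (List.finite_length_le _ _).prod Set.finite_univ
  · exact (VV_fin m).prod Set.finite_univ

theorem tr_len {P : List Lt → Prop} (h : PrefCl P) {n : ℕ} (hP : ∀ x, P x → x.length ≤ n)
    (v : List Lt) : (tr P v).length ≤ n + 1 := by
  rcases List.eq_nil_or_concat (tr P v) with h0 | ⟨x, c, hx⟩
  · rw [h0]
    simp
  · have h1 : P x := tr_proper h v x c (by rw [hx, List.concat_eq_append])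
    rw [hx, List.length_concat]
    have := hP x h1
    omega

theorem nf_XFin (u : List Lt) (t : Option Bool) : nf m F u t ∈ XFin m F := by
  have h0 : X.rc (tr (PP m) u) ∈ XFin m F :=
    Or.inl (Or.inl ⟨_, tr_len (PP_pref m) (fun x hx => PP_len hx) u, rfl⟩)
  rcases t with _ | p
  · rw [nf_none]
    exact h0
  · by_cases h1 : ∃ v : List (Fin 4), SqF v ∧ v.length ≤ m ∧ u = v.map some
    · obtain ⟨v, hv1, hv2, rfl⟩ := h1
      rw [nf_pt m F hv1 hv2]
      exact Or.inl (Or.inr ⟨(v, p), ⟨hv2, Set.mem_univ _⟩, rfl⟩)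
    · by_cases h2 : QQ m u
      · obtain ⟨v, hv1, hv2, rfl⟩ := h2
        rw [nf_fn m F hv1 hv2]
        exact Or.inr ⟨(v, p), ⟨⟨hv1, hv2⟩, Set.mem_univ _⟩, rfl⟩
      · have : nf m F u (some p) = X.rc (tr (PP m) u) := by
          simp only [nf, if_neg h1, if_neg h2]
        rw [this]
        exact h0

theorem SS_vals {s : M} (hs : s ∈ SS m F) :
    (∀ x, s.f x ∈ XFin m F) ∧ ∀ r, (s.h r).length ≤ m + 2 := by
  unfold SS at hs
  have hpt : ∀ p : Bool, X.pt [] p ∈ XFin m F := fun p =>
    Or.inl (Or.inr ⟨([], p), ⟨by simp, Set.mem_univ _⟩, rfl⟩)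
  have hrc : X.rc [] ∈ XFin m F := Or.inl (Or.inl ⟨[], by simp, rfl⟩)
  induction hs using Subsemigroup.closure_induction with
  | mem x hx =>
    rcases hx with ⟨c, rfl⟩ | hx
    · refine ⟨fun x => nf_XFin m F _ _, fun r => ?_⟩
      exact tr_len (PR_pref m) (fun x hx => by
        have h1 : x.reverse.length ≤ m + 1 := PP_len hx
        rwa [List.length_reverse] at h1) _
    · rcases hx with rfl | rfl | rfl
      · refine ⟨fun x => ?_, fun r => by simp [dd]⟩
        cases x with
        | rc r => exact hrc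
        | pt w p => exact hrc
        | fn p i => exact hpt p
      · exact ⟨fun x => hpt true, fun r => by simp [kk]⟩
      · exact ⟨fun x => hpt false, fun r => by simp [kk]⟩
  | mul x y _ _ hx hy =>
    exact ⟨fun z => hx.1 _, fun r => hy.2 _⟩

theorem SS_finite : (SS m F : Set M).Finite := by
  have h1 : (SS m F : Set M) ⊆ (W m F '' {w : List Lt | PP m w}) ∪
      ((fun q : List Lt × List Lt => D m F q.1 q.2) ''
        ({w : List Lt | PP m w} ×ˢ {w : List Lt | PP m w})) ∪
      Set.image2 kk (XFin m F) {r : List Lt | r.length ≤ m + 2} := by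
    intro s hs
    rcases classify m F hs with ⟨v, _, hv, rfl⟩ | ⟨w, w', hw, hw', rfl⟩ | ⟨x, r, rfl⟩
    · exact Or.inl (Or.inl ⟨v, hv, rfl⟩)
    · exact Or.inl (Or.inr ⟨(w, w'), ⟨hw, hw'⟩, rfl⟩)
    · have h2 := SS_vals m F hs
      exact Or.inr ⟨x, h2.1 x, r, h2.2 r, rfl⟩
  refine Set.Finite.subset ?_ h1
  refine (((PP_fin m).image _).union (((PP_fin m).prod (PP_fin m)).image _)).union ?_
  exact Set.Finite.image2 _ (XFin_finite m F) (List.finite_length_le _ _)

theorem gens_card : (gens m F).Finite ∧ (gens m F).ncard ≤ 8 := by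
  have h1 : (Set.range (ell m F)).Finite := Set.finite_range _
  have h2 : (Set.range (ell m F)).ncard ≤ 5 := by
    rw [← Set.image_univ]
    refine (Set.ncard_image_le Set.finite_univ).trans ?_
    rw [Set.ncard_univ]
    simp
  have h3 : ({dd, kk (X.pt [] true) [], kk (X.pt [] false) []} : Set M).ncard ≤ 3 := by
    refine (Set.ncard_insert_le _ _).trans ?_
    have := Set.ncard_insert_le (kk (X.pt [] true) []) {kk (X.pt [] false) []}
    rw [Set.ncard_singleton] at this
    omega
  refine ⟨h1.union (by simp), ?_⟩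
  have := Set.ncard_union_le (Set.range (ell m F))
    {dd, kk (X.pt [] true) [], kk (X.pt [] false) []}
  unfold gens
  omega

end C

end R686CG
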