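import Pool.Agent.R686.CG.Defs

/-! Piece T: truncation -/

set_option autoImplicit false

namespace R686CG

section T
variable {α : Type} {P : List α → Prop}

theorem tr_step_pos {v : List α} (c : α) (h : P (tr P v)) : tr P (v ++ [c]) = tr P v ++ [c] := by
  classical
  unfold tr at h ⊢
  rw [List.foldl_append, List.foldl_cons, List.foldl_nil, if_pos h]

theorem tr_step_neg {v : List α} (c : α) (h : ¬ P (tr P v)) : tr P (v ++ [c]) = tr P v := by
  classical
  unfold tr at h ⊢
  rw [List.foldl_append, List.foldl_cons, List.foldl_nil, if_neg h]

theorem tr_eq_of_tr (v : List α) (h : P (tr P v)) : tr P v = v := by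
  induction v using List.reverseRecOn with
  | nil => rfl
  | append_singleton v c ih =>
    by_cases h1 : P (tr P v)
    · rw [tr_step_pos c h1, ih h1]
    · rw [tr_step_neg c h1] at h
      exact absurd h h1

theorem tr_of (h : PrefCl P) {v : List α} (hv : P v) : tr P v = v := by
  induction v using List.reverseRecOn with
  | nil => rfl
  | append_singleton v c ih =>
    have h1 := ih (h v [c] hv)
    rw [tr_step_pos c (by rw [h1]; exact h v [c] hv), h1]

theorem tr_prefix (v : List α) : tr P v <+: v := by
  induction v using List.reverseRecOn with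
  | nil => exact List.prefix_rfl
  | append_singleton v c ih =>
    by_cases h1 : P (tr P v)
    · rw [tr_step_pos c h1, tr_eq_of_tr v h1]
    · rw [tr_step_neg c h1]
      exact ih.trans (List.prefix_append v [c])

theorem tr_not (_h : PrefCl P) {v : List α} (hv : ¬ P v) : ¬ P (tr P v) := by
  intro h1
  rw [tr_eq_of_tr v h1] at h1
  exact hv h1

theorem tr_append (h : PrefCl P) {v : List α} (hv : ¬ P v) (r : List α) : tr P (v ++ r) = tr P v := by
  induction r using List.reverseRecOn with
  | nil => rw [List.append_nil]
  | append_singleton r c ih =>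
    rw [← List.append_assoc, tr_step_neg c (by rw [ih]; exact tr_not h hv), ih]

theorem tr_cons_tr (h : PrefCl P) (h' : SufCl P) (c : α) (v : List α) :
    tr P (c :: tr P v) = tr P (c :: v) := by
  by_cases h1 : P (tr P v)
  · rw [tr_eq_of_tr v h1]
  · obtain ⟨r, hr⟩ := tr_prefix (P := P) v
    have h2 : ¬ P (c :: tr P v) := fun h3 => h1 (h' [c] (tr P v) h3)
    conv_rhs => rw [← hr, ← List.cons_append, tr_append h h2]

/-- proper prefixes of the truncation are in `P` -/
theorem tr_proper (_h : PrefCl P) (v x : List α) (c : α) (hx : x ++ [c] <+: tr P v) : P x := by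
  induction v using List.reverseRecOn with
  | nil =>
    have h1 : x ++ [c] = [] := List.prefix_nil.1 hx
    simp at h1
  | append_singleton v d ih =>
    by_cases h1 : P (tr P v)
    · rw [tr_step_pos d h1, List.prefix_concat_iff] at hx
      rcases hx with h2 | h2
      · rw [List.append_inj_left' h2 rfl]
        exact h1
      · exact ih h2
    · rw [tr_step_neg d h1] at hx
      exact ih hx

/-- the truncation of `v` (not in `P`) is longer than every prefix of `v` lying in `P` -/
theorem le_tr (h : PrefCl P) {u v : List α} (hu : P u) (huv : u <+: v) : u <+: tr P v := by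
  obtain ⟨r, rfl⟩ := huv
  induction r using List.reverseRecOn with
  | nil =>
    rw [List.append_nil, tr_of h hu]
  | append_singleton r c ih =>
    rw [← List.append_assoc]
    by_cases h1 : P (tr P (u ++ r))
    · rw [tr_step_pos c h1]
      exact ih.trans (List.prefix_append _ _)
    · rw [tr_step_neg c h1]
      exact ih

end T

end R686CG
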