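import Pool.Agent.R686.CG.Defs
import Pool.Agent.R686.CG.Trunc
import Pool.Agent.R686.CG.PCl
import Pool.Agent.R686.CG.Act

set_option autoImplicit false

namespace R686CG

section N1
variable (m : ℕ) (F : Bool → List (Fin 4) → ℕ)
/-- two nonempty commuting words contain a square -/
theorem comm_square {α : Type} {u x : List α} (hu : u ≠ []) (hx : x ≠ []) (h : u ++ x = x ++ u) :
    ¬ SqF (u ++ x) := by
  intro hs
  rcases le_total u.length x.length with hl | hl
  · have h1 : u <+: x := by
      apply List.prefix_of_prefix_length_le (l₃ := x ++ u) _ (List.prefix_append _ _) hl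
      rw [← h]; exact List.prefix_append _ _
    obtain ⟨z, rfl⟩ := h1
    exact hu (hs [] u z (by simp))
  · have h1 : x <+: u := by
      apply List.prefix_of_prefix_length_le (l₃ := u ++ x) _ (List.prefix_append _ _) hl
      rw [h]; exact List.prefix_append _ _
    obtain ⟨z, rfl⟩ := h1
    exact hx (hs [] x z (by rw [h]; simp))

theorem comm_aux {u v : List Lt} (pv : PP m v) (hl : u.length ≤ v.length)
    (h : tr (PP m) (u ++ v) = tr (PP m) (v ++ u))
    (h' : tr (PR m) (u ++ v).reverse = tr (PR m) (v ++ u).reverse) (hu : u ≠ []) : u = v := by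
  have h1 : v <+: u ++ v := by
    have h2 : v <+: tr (PP m) (v ++ u) := le_tr (PP_pref m) pv (List.prefix_append _ _)
    rw [← h] at h2
    exact h2.trans (tr_prefix _)
  have h3 : u <+: v := List.prefix_of_prefix_length_le (List.prefix_append _ _) h1 hl
  have h4 : v.reverse <+: u.reverse ++ v.reverse := by
    have h5 : v.reverse <+: tr (PR m) (u ++ v).reverse := by
      apply le_tr (PR_pref m)
      · unfold PR; rw [List.reverse_reverse]; exact pv
      · rw [List.reverse_append]; exact List.prefix_append _ _
    rw [h'] at h5
    have h6 := h5.trans (tr_prefix _)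
    rwa [List.reverse_append] at h6
  have h7 : u.reverse <+: v.reverse :=
    List.prefix_of_prefix_length_le (List.prefix_append _ _) h4 (by simpa using hl)
  have h8 : u <:+ v := List.reverse_prefix.mp h7
  obtain ⟨x, hx⟩ := h3
  obtain ⟨y, hy⟩ := h8
  have hxv : x <+: v := by
    rw [← hx] at h1
    have := (List.prefix_append_right_inj u).mp h1
    rwa [hx] at this
  have hyv : y <+: v := ⟨u, hy⟩
  have hlen : x.length = y.length := by
    have a1 := congrArg List.length hx
    have a2 := congrArg List.length hy
    simp only [List.length_append] at a1 a2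
    omega
  have hxy : x = y := by
    have := List.prefix_of_prefix_length_le hxv hyv hlen.le
    exact this.eq_of_length hlen
  by_cases hx0 : x = []
  · rw [hx0, List.append_nil] at hx
    exact hx
  · exfalso
    apply comm_square hu hx0 (by rw [hx, hxy, hy])
    rw [hx]
    exact PP_SqF pv

theorem comm_WW {u v : List Lt} (hu : u ≠ []) (hv : v ≠ []) (pu : PP m u) (pv : PP m v)
    (h : W m F u * W m F v = W m F v * W m F u) : u = v := by
  rw [← W_append, ← W_append] at h
  have h1 : tr (PP m) (u ++ v) = tr (PP m) (v ++ u) := by
    have h2 := congrArg (fun s : M => s.f (nf m F [] none)) h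
    simp only [W_f_nf, List.append_nil] at h2
    rw [nf_none, nf_none] at h2
    exact X.rc.inj h2
  have h2 : tr (PR m) (u ++ v).reverse = tr (PR m) (v ++ u).reverse := by
    have h2 := congrArg (fun s : M => s.h (tr (PR m) [])) h
    simp only [W_h_tr, List.append_nil] at h2
    exact h2
  rcases le_total u.length v.length with hl | hl
  · exact comm_aux m pv hl h1 h2 hu
  · exact (comm_aux m pu hl h1.symm h2.symm hv).symm
end N1

end R686CG
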