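import Pool.Agent.R686.CG.Class
import Pool.Agent.R686.CG.Act

/-! Piece N2: the other commutations -/

set_option autoImplicit false

namespace R686CG

section N2
variable (m : ℕ) (F : Bool → List (Fin 4) → ℕ)

theorem W_f_rc (v r : List Lt) : ∃ q, (W m F v).f (X.rc r) = X.rc q := by
  by_cases hv : v = []
  · subst hv
    exact ⟨r, rfl⟩
  · exact ⟨_, W_f m F hv (X.rc r)⟩

theorem rc_eq_nf {w : List Lt} (pw : PP m w) : X.rc w = nf m F w none := by
  rw [nf_none, tr_of (PP_pref m) pw]

theorem D_f_rc {w : List Lt} (w' r : List Lt) (pw : PP m w) :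
    (D m F w w').f (X.rc r) = X.rc w := by
  unfold D
  rw [mul_f, mul_f]
  obtain ⟨q, hq⟩ := W_f_rc m F w' r
  rw [hq]
  change (W m F w).f (nf m F [] none) = _
  rw [W_f_nf, List.append_nil, ← rc_eq_nf m F pw]

theorem D_h {w' : List Lt} (w r : List Lt) (pw' : PP m w') :
    (D m F w w').h r = w'.reverse := by
  unfold D
  rw [mul_h, mul_h]
  change (W m F w').h (tr (PR m) []) = _
  rw [W_h_tr, List.append_nil]
  apply tr_of (PR_pref m)
  change PP m w'.reverse.reverse
  rwa [List.reverse_reverse]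

theorem nf_eq_fn {u : List Lt} {t : Option Bool} {p : Bool} {i : ℕ} (h : nf m F u t = X.fn p i) :
    QQ m u := by
  by_contra hQ
  by_cases h1 : ∃ v : List (Fin 4), SqF v ∧ v.length ≤ m ∧ u = v.map some
  · cases t with
    | none =>
      rw [nf_none] at h
      cases h
    | some q =>
      obtain ⟨v, hv, hl, rfl⟩ := h1
      rw [nf_pt m F hv hl] at h
      cases h
  · rw [nf_rc m F h1 hQ] at h
    cases h

theorem comm_WD {u w w' : List Lt} (hu : u ≠ []) (pw : PP m w) (pw' : PP m w') :
    W m F u * D m F w w' ≠ D m F w w' * W m F u := by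
  intro h
  have h1 := congrArg (fun s : M => s.f (X.rc [])) h
  obtain ⟨q, hq⟩ := W_f_rc m F u []
  rw [mul_f, mul_f, D_f_rc m F _ _ pw, hq, D_f_rc m F _ _ pw, rc_eq_nf m F pw, W_f_nf, nf_none,
    nf_none] at h1
  have h2 := X.rc.inj h1
  rw [tr_of (PP_pref m) pw] at h2
  by_cases h3 : PP m (u ++ w)
  · rw [tr_of (PP_pref m) h3] at h2
    exact hu (List.append_left_eq_self.1 h2)
  · apply tr_not (PP_pref m) h3
    rw [h2]
    exact pw

theorem comm_DD {u u' w w' : List Lt} (pu : PP m u) (pu' : PP m u') (pw : PP m w) (pw' : PP m w')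
    (h : D m F u u' * D m F w w' = D m F w w' * D m F u u') : u = w ∧ u' = w' := by
  constructor
  · have h1 := congrArg (fun s : M => s.f (X.rc [])) h
    rw [mul_f, mul_f, D_f_rc m F _ _ pw, D_f_rc m F _ _ pu, D_f_rc m F _ _ pu,
      D_f_rc m F _ _ pw] at h1
    exact X.rc.inj h1
  · have h1 := congrArg (fun s : M => s.h []) h
    rw [mul_h, mul_h, D_h m F _ _ pw', D_h m F _ _ pu'] at h1
    exact List.reverse_injective h1.symm

theorem comm_K {s : M} {x : X} {r : List Lt} (h : s * kk x r = kk x r * s) :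
    s.f x = x ∧ s.h r = r := by
  rw [mul_kk, kk_mul] at h
  constructor
  · exact congrArg (fun s : M => s.f x) h
  · exact (congrArg (fun s : M => s.h r) h).symm

theorem comm_WK {u : List Lt} (hu : u ≠ []) (pu : PP m u) {x : X} {r : List Lt}
    (h : W m F u * kk x r = kk x r * W m F u) :
    x = X.rc (tr (PP m) (u ++ u)) ∧ r = tr (PR m) (u ++ u).reverse := by
  obtain ⟨h1, h2⟩ := comm_K h
  have h3 : ¬ PP m (u ++ u) := by
    intro h3
    apply hu
    exact PP_SqF h3 [] u [] (by simp)
  have h4 : W m F u * W m F u = kk (X.rc (tr (PP m) (u ++ u))) (tr (PR m) (u ++ u).reverse) := by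
    rw [← W_append, W_not m F h3]
  constructor
  · have h5 := congrArg (fun s : M => s.f x) h4
    rw [mul_f, h1, h1] at h5
    exact h5
  · have h5 := congrArg (fun s : M => s.h r) h4
    rw [mul_h, h2, h2] at h5
    exact h5

theorem comm_DK {w w' : List Lt} (pw : PP m w) (pw' : PP m w') {x : X} {r : List Lt}
    (h : D m F w w' * kk x r = kk x r * D m F w w') :
    r = w'.reverse ∧ (x = X.rc w ∨ (QQ m (w' ++ w) ∧ ∃ p : Bool, x = nf m F w (some p))) := by
  obtain ⟨h1, h2⟩ := comm_K h
  rw [D_h m F _ _ pw'] at h2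
  refine ⟨h2.symm, ?_⟩
  unfold D at h1
  rw [mul_f, mul_f] at h1
  have hrc : dd.f ((W m F w').f x) = X.rc [] → x = X.rc w := by
    intro h3
    rw [h3] at h1
    rw [← h1]
    change (W m F w).f (nf m F [] none) = _
    rw [W_f_nf, List.append_nil, ← rc_eq_nf m F pw]
  cases hy : (W m F w').f x with
  | rc q => exact Or.inl (hrc (by rw [hy]; rfl))
  | pt v p => exact Or.inl (hrc (by rw [hy]; rfl))
  | fn p i =>
    right
    have hx : x = nf m F w (some p) := by
      rw [hy] at h1
      rw [← h1]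
      change (W m F w).f (X.pt [] p) = _
      rw [← nf_nil_some m F p, W_f_nf, List.append_nil]
    refine ⟨?_, p, hx⟩
    rw [hx, W_f_nf] at hy
    exact nf_eq_fn m F hy

theorem comm_KK {x y : X} {r s : List Lt} (h : kk x r * kk y s = kk y s * kk x r) :
    x = y ∧ r = s := by
  rw [kk_mul, kk_mul] at h
  constructor
  · exact congrArg (fun t : M => t.f x) h
  · exact (congrArg (fun t : M => t.h r) h).symm

theorem D_f_fn {z : List (Fin 4)} (hz : z ∈ VV m) (p : Bool) (i : ℕ) :
    (D m F (none :: z.map some) []).f (X.fn p i) = X.fn p (F p z) := by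
  unfold D
  rw [mul_f, mul_f]
  change (W m F (none :: z.map some)).f (X.pt [] p) = _
  rw [← nf_nil_some m F p, W_f_nf, List.append_nil, nf_fn m F hz.1 hz.2]

theorem PP_of_VV {z : List (Fin 4)} (hz : z ∈ VV m) : PP m (none :: z.map some) :=
  QQ_PP ⟨z, hz.1, hz.2, rfl⟩

/-- the edges of the cycle -/
theorem comm_edge {z : List (Fin 4)} (hz : z ∈ VV m) (p : Bool) :
    D m F (none :: z.map some) [] * kk (X.fn p (F p z)) [] =
      kk (X.fn p (F p z)) [] * D m F (none :: z.map some) [] := by
  rw [mul_kk, kk_mul, D_f_fn m F hz, D_h m F _ _ (PP_nil m)]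
  rfl

theorem K_mem {z : List (Fin 4)} (hz : z ∈ VV m) (p : Bool) : kk (X.fn p (F p z)) [] ∈ SS m F := by
  have h1 : kk (X.fn p (F p z)) [] = W m F (none :: z.map some) * kk (X.pt [] p) [] := by
    rw [mul_kk, ← nf_nil_some m F p, W_f_nf, List.append_nil, nf_fn m F hz.1 hz.2]
  rw [h1]
  refine mul_mem (W_mem m F (by simp)) (Subsemigroup.subset_closure ?_)
  right
  cases p
  · exact Or.inr (Or.inr rfl)
  · exact Or.inr (Or.inl rfl)

theorem D_inj {z z' : List (Fin 4)} (hz : z ∈ VV m) (hz' : z' ∈ VV m)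
    (h : D m F (none :: z.map some) [] = D m F (none :: z'.map some) []) : z = z' := by
  have h1 := congrArg (fun s : M => s.f (X.rc [])) h
  rw [D_f_rc m F _ _ (PP_of_VV m hz), D_f_rc m F _ _ (PP_of_VV m hz')] at h1
  have h2 := (List.cons.inj (X.rc.inj h1)).2
  exact List.map_injective_iff.2 (Option.some_injective _) h2

theorem D_ne_K {z : List (Fin 4)} (hz : z ∈ VV m) (x : X) (r : List Lt) :
    D m F (none :: z.map some) [] ≠ kk x r := by
  intro h
  have h1 := congrArg (fun s : M => s.f (X.fn true 0)) h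
  have h2 := congrArg (fun s : M => s.f (X.fn false 0)) h
  rw [D_f_fn m F hz] at h1 h2
  have h3 : X.fn true (F true z) = X.fn false (F false z) := h1.trans h2.symm
  cases (X.fn.inj h3).1

/-- the centre is empty -/
theorem no_center (s : SS m F) : ∃ t : SS m F, s * t ≠ t * s := by
  by_contra hcon
  push Not at hcon
  have hk : ∀ p : Bool, (s : M) * kk (X.pt [] p) [] = kk (X.pt [] p) [] * (s : M) := by
    intro p
    have hmem : kk (X.pt [] p) [] ∈ SS m F := by
      refine Subsemigroup.subset_closure ?_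
      right
      cases p
      · exact Or.inr (Or.inr rfl)
      · exact Or.inr (Or.inl rfl)
    exact congrArg (fun t : SS m F => (t : M)) (hcon ⟨_, hmem⟩)
  rcases classify m F s.2 with ⟨v, hv, pv, hs⟩ | ⟨w, w', pw, pw', hs⟩ | ⟨x, r, hs⟩
  · have h1 := hk true
    rw [hs] at h1
    cases (comm_WK m F hv pv h1).1
  · have h1 := hk true
    rw [hs] at h1
    obtain ⟨h2, h3⟩ := comm_DK m F pw pw' h1
    have h4 : w' = [] := by
      rw [← List.reverse_eq_nil_iff]
      exact h2.symm
    subst h4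
    rcases h3 with h3 | ⟨⟨v, hv, hl, h5⟩, p, h6⟩
    · cases h3
    · rw [List.nil_append] at h5
      subst h5
      rw [nf_fn m F hv hl] at h6
      cases h6
  · have h1 := hk true
    have h2 := hk false
    rw [hs] at h1 h2
    have h3 := (comm_KK h1).1.symm.trans (comm_KK h2).1
    cases (X.pt.inj h3).2

end N2

end R686CG
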