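import Pool.Agent.R686.CG.Act
import Pool.Agent.R686.CG.Class
import Pool.Agent.R686.CG.Comm1
import Pool.Agent.R686.CG.Comm2

namespace R686CG

/-! ## Piece S : two-closed sets of the commuting graph -/
section S
variable (m : ℕ) (F : Bool → List (Fin 4) → ℕ)

theorem core_char {w w' : List Lt} (pw : PP m w) (pw' : PP m w') {x : X} {r : List Lt}
    (h : D m F w w' * kk x r = kk x r * D m F w w') :
    r = w'.reverse ∧ (x = X.rc w ∨ (∃ v p, x = X.pt v p ∧ w = v.map some) ∨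
      ∃ z ∈ VV m, ∃ p : Bool, x = X.fn p (F p z) ∧ w = none :: z.map some ∧ w' = []) := by
  obtain ⟨hr, h1⟩ := comm_DK m F pw pw' h
  refine ⟨hr, ?_⟩
  rcases h1 with h1 | ⟨hQ, p, hp⟩
  · exact Or.inl h1
  · obtain ⟨v, hv1, hv2, hv⟩ := pw
    rcases hv with rfl | rfl
    · rw [nf_pt m F hv1 hv2] at hp
      exact Or.inr (Or.inl ⟨v, p, hp, rfl⟩)
    · rcases Nat.lt_or_eq_of_le hv2 with h2 | h2
      · rw [nf_short m F hv1 h2] at hp
        exact Or.inl hp
      · rw [nf_fn m F hv1 h2] at hp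
        refine Or.inr (Or.inr ⟨v, ⟨hv1, h2⟩, p, hp, rfl, ?_⟩)
        obtain ⟨u, _, hu2, hu⟩ := hQ
        have h3 := congrArg List.length hu
        simp only [List.length_append, List.length_cons, List.length_map] at h3
        exact List.length_eq_zero_iff.1 (by omega)

/-- no word in `C` -/
theorem core_noW {C : Set (SS m F)} (hC : TwoClosed (CG m F) C) {s : SS m F} (hs : s ∈ C)
    {v : List Lt} (hv : v ≠ []) (pv : PP m v) : (s : M) ≠ W m F v := by
  intro hsv
  obtain ⟨y, _, z, _, hyz, hy, hz⟩ := hC s hs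
  have key : ∀ y : SS m F, (CG m F).Adj s y →
      (y : M) = kk (X.rc (tr (PP m) (v ++ v))) (tr (PR m) (v ++ v).reverse) := by
    intro y hy
    obtain ⟨h1, h2⟩ := hy
    have h2' : (s : M) * y = y * s := congrArg Subtype.val h2
    rw [hsv] at h2'
    rcases classify m F y.2 with ⟨u, hu, pu, h3⟩ | ⟨w, w', pw, pw', h3⟩ | ⟨x, r, h3⟩
    · exfalso
      rw [h3] at h2'
      have := comm_WW m F hv hu pv pu h2'
      apply h1
      apply Subtype.ext
      rw [hsv, h3, this]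
    · exfalso
      rw [h3] at h2'
      exact comm_WD m F hv pw pw' h2'
    · rw [h3] at h2'
      obtain ⟨h4, h5⟩ := comm_WK m F hv pv h2'
      rw [h3, h4, h5]
  exact hyz (Subtype.ext ((key y hy).trans (key z hz).symm))

/-- the neighbours of `D` are constants -/
theorem core_D {C : Set (SS m F)} (hC : TwoClosed (CG m F) C) {s : SS m F} {w w' : List Lt}
    (pw : PP m w) (pw' : PP m w') (hsv : (s : M) = D m F w w') {y : SS m F} (hyC : y ∈ C)
    (hy : (CG m F).Adj s y) :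
    ∃ x r, (y : M) = kk x r ∧ D m F w w' * kk x r = kk x r * D m F w w' := by
  obtain ⟨h1, h2⟩ := hy
  have h2' : (s : M) * y = y * s := congrArg Subtype.val h2
  rw [hsv] at h2'
  rcases classify m F y.2 with ⟨u, hu, pu, h3⟩ | ⟨u, u', pu, pu', h3⟩ | ⟨x, r, h3⟩
  · exact absurd h3 (core_noW m F hC hyC hu pu)
  · exfalso
    rw [h3] at h2'
    obtain ⟨h4, h5⟩ := comm_DD m F pw pw' pu pu' h2'
    apply h1
    apply Subtype.ext
    rw [hsv, h3, h4, h5]
  · rw [h3] at h2'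
    exact ⟨x, r, h3, h2'⟩

/-- the constants in `C` -/
theorem core_K {C : Set (SS m F)} (hC : TwoClosed (CG m F) C) {s : SS m F} (hs : s ∈ C)
    {x : X} {r : List Lt} (hsv : (s : M) = kk x r) :
    r = [] ∧ ∃ (p : Bool) (i : ℕ), x = X.fn p i ∧ ∃ z1 ∈ VV m, ∃ z2 ∈ VV m, z1 ≠ z2 ∧
      F p z1 = i ∧ F p z2 = i ∧ (∃ y ∈ C, (y : M) = D m F (none :: z1.map some) []) ∧
      ∃ y ∈ C, (y : M) = D m F (none :: z2.map some) [] := by
  obtain ⟨y, hyC, z, hzC, hyz, hy, hz⟩ := hC s hs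
  have key : ∀ y : SS m F, y ∈ C → (CG m F).Adj s y → ∃ w w', PP m w ∧ PP m w' ∧
      (y : M) = D m F w w' ∧ D m F w w' * kk x r = kk x r * D m F w w' := by
    intro y hyC hy
    obtain ⟨h1, h2⟩ := hy
    have h2' : (s : M) * y = y * s := congrArg Subtype.val h2
    rw [hsv] at h2'
    rcases classify m F y.2 with ⟨u, hu, pu, h3⟩ | ⟨u, u', pu, pu', h3⟩ | ⟨x', r', h3⟩
    · exact absurd h3 (core_noW m F hC hyC hu pu)
    · rw [h3] at h2'
      exact ⟨u, u', pu, pu', h3, h2'.symm⟩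
    · exfalso
      rw [h3] at h2'
      obtain ⟨h4, h5⟩ := comm_KK h2'
      apply h1
      apply Subtype.ext
      rw [hsv, h3, h4, h5]
  obtain ⟨w, w', pw, pw', hyD, hyc⟩ := key y hyC hy
  obtain ⟨u, u', pu, pu', hzD, hzc⟩ := key z hzC hz
  obtain ⟨hr1, h1⟩ := core_char m F pw pw' hyc
  obtain ⟨hr2, h2⟩ := core_char m F pu pu' hzc
  have hw' : w' = u' := List.reverse_injective (hr1.symm.trans hr2)
  have hne : w ≠ u := by
    rintro rfl
    apply hyz
    apply Subtype.ext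
    rw [hyD, hzD, hw']
  rcases h1 with h1 | ⟨v, p, h1, h1'⟩ | ⟨z1, hz1, p, h1, h1', h1''⟩
  · exfalso
    rcases h2 with h2 | ⟨v', p', h2, h2'⟩ | ⟨z2, hz2, p', h2, h2', h2''⟩
    · rw [h1] at h2
      exact hne (X.rc.inj h2)
    · rw [h1] at h2
      exact X.noConfusion h2
    · rw [h1] at h2
      exact X.noConfusion h2
  · exfalso
    rcases h2 with h2 | ⟨v', p', h2, h2'⟩ | ⟨z2, hz2, p', h2, h2', h2''⟩
    · rw [h1] at h2
      exact X.noConfusion h2
    · rw [h1] at h2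
      have h3 := (X.pt.inj h2).1
      exact hne (by rw [h1', h2', h3])
    · rw [h1] at h2
      exact X.noConfusion h2
  · rcases h2 with h2 | ⟨v', p', h2, h2'⟩ | ⟨z2, hz2, p', h2, h2', h2''⟩
    · rw [h1] at h2
      exact X.noConfusion h2
    · rw [h1] at h2
      exact X.noConfusion h2
    · have h3 := h2
      rw [h1] at h3
      obtain ⟨h4, h5⟩ := X.fn.inj h3
      subst h4
      refine ⟨by rw [hr1, h1'']; rfl, p, F p z1, h1, z1, hz1, z2, hz2, ?_, rfl, h5.symm, ?_, ?_⟩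
      · rintro rfl
        exact hne (by rw [h1', h2'])
      · exact ⟨y, hyC, by rw [hyD, h1', h1'']⟩
      · exact ⟨z, hzC, by rw [hzD, h2', h2'']⟩

theorem core {C : Set (SS m F)} (hC : TwoClosed (CG m F) C) (hne : C.Nonempty) :
    (∃ z ∈ VV m, ∃ s ∈ C, (s : M) = D m F (none :: z.map some) []) ∧
    (∀ z ∈ VV m, (∃ s ∈ C, (s : M) = D m F (none :: z.map some) []) → ∀ p : Bool,
      ∃ z' ∈ VV m, z' ≠ z ∧ F p z' = F p z ∧
        ∃ s ∈ C, (s : M) = D m F (none :: z'.map some) []) := by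
  constructor
  · obtain ⟨s, hs⟩ := hne
    have hK : ∀ s : SS m F, s ∈ C → ∀ x r, (s : M) = kk x r →
        ∃ z ∈ VV m, ∃ s ∈ C, (s : M) = D m F (none :: z.map some) [] := by
      intro s hs x r hsv
      obtain ⟨_, p, i, _, z1, hz1, _, _, _, _, _, h, _⟩ := core_K m F hC hs hsv
      exact ⟨z1, hz1, h⟩
    rcases classify m F s.2 with ⟨u, hu, pu, h3⟩ | ⟨w, w', pw, pw', h3⟩ | ⟨x, r, h3⟩
    · exact absurd h3 (core_noW m F hC hs hu pu)
    · obtain ⟨y, hyC, _, _, _, hy, _⟩ := hC s hs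
      obtain ⟨x, r, h4, _⟩ := core_D m F hC pw pw' h3 hyC hy
      exact hK y hyC x r h4
    · exact hK s hs x r h3
  · rintro z hz ⟨s, hs, hsv⟩ p
    have pw : PP m (none :: z.map some) := ⟨z, hz.1, hz.2.le, Or.inr rfl⟩
    have pw' : PP m [] := PP_nil m
    obtain ⟨y1, hy1C, y2, hy2C, hyy, hy1, hy2⟩ := hC s hs
    have key : ∀ y : SS m F, y ∈ C → (CG m F).Adj s y →
        ∃ q : Bool, (y : M) = kk (X.fn q (F q z)) [] := by
      intro y hyC hy
      obtain ⟨x, r, h4, h5⟩ := core_D m F hC pw pw' hsv hyC hy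
      obtain ⟨hr, q, i, hx, _⟩ := core_K m F hC hyC h4
      obtain ⟨_, h6⟩ := core_char m F pw pw' h5
      rw [hx] at h6
      rcases h6 with h6 | ⟨_, _, h6, _⟩ | ⟨z', hz', q', h6, h7, _⟩
      · exact X.noConfusion h6
      · exact X.noConfusion h6
      · obtain ⟨h8, h9⟩ := X.fn.inj h6
        subst h8
        have h10 : z = z' := by
          have h11 : z.map some = z'.map some := (List.cons.inj h7).2
          exact List.map_injective_iff.2 (Option.some_injective _) h11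
        rw [← h10] at h9
        exact ⟨q, by rw [h4, hx, hr, h9]⟩
    obtain ⟨q1, h1⟩ := key y1 hy1C hy1
    obtain ⟨q2, h2⟩ := key y2 hy2C hy2
    have hq : q1 ≠ q2 := by
      rintro rfl
      exact hyy (Subtype.ext (h1.trans h2.symm))
    obtain ⟨y, hyC, hyv⟩ : ∃ y ∈ C, (y : M) = kk (X.fn p (F p z)) [] := by
      have : p = q1 ∨ p = q2 := by
        cases p <;> cases q1 <;> cases q2 <;> simp_all
      rcases this with rfl | rfl
      · exact ⟨y1, hy1C, h1⟩
      · exact ⟨y2, hy2C, h2⟩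
    obtain ⟨_, q, i, hx, z1, hz1, z2, hz2, hzz, hi1, hi2, hd1, hd2⟩ := core_K m F hC hyC hyv
    obtain ⟨h8, h9⟩ := X.fn.inj hx
    subst h8
    by_cases h10 : z1 = z
    · refine ⟨z2, hz2, ?_, by rw [hi2, h9], hd2⟩
      rintro rfl
      exact hzz h10
    · exact ⟨z1, hz1, h10, by rw [hi1, h9], hd1⟩

end S

end R686CG
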