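import Pool.Agent.R686.CG.PCl

/-! Piece Q: at least `2 ^ m` square-free words of length `m` over four letters. -/

namespace R686CG

section Q

namespace CountAux

/-- square-free words of length `k` as a finset -/
noncomputable def S (k : ℕ) : Finset (List (Fin 4)) := (VV_fin k).toFinset

theorem mem_S {k : ℕ} {w : List (Fin 4)} : w ∈ S k ↔ SqF w ∧ w.length = k := by
  simp [S, VV]

theorem card_S (k : ℕ) : (S k).card = (VV k).ncard :=
  (Set.ncard_eq_toFinset_card (VV k) (VV_fin k)).symm

theorem bad {k : ℕ} {v : List (Fin 4)} {c : Fin 4} (hv : v ∈ S k) (hw : v ++ [c] ∉ S (k + 1)) :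
    ∃ i ∈ Finset.Icc 1 k, ∃ u ∈ S i, u ++ u.drop (2 * i - (k + 1)) = v ++ [c] := by
  obtain ⟨hs, hl⟩ := mem_S.1 hv
  rw [mem_S, List.length_append, List.length_singleton, hl] at hw
  have hw' : ¬ SqF (v ++ [c]) := fun h => hw ⟨h, rfl⟩
  unfold SqF at hw'
  push Not at hw'
  obtain ⟨x, y, z, e, hy⟩ := hw'
  have hz : z = [] := by
    by_contra hz
    have h1 : z.dropLast ++ [z.getLast hz] = z := List.dropLast_append_getLast hz
    rw [← h1] at e
    have e2 : v ++ [c] = (x ++ (y ++ (y ++ z.dropLast))) ++ [z.getLast hz] := by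
      rw [e]
      simp
    exact hy (hs _ _ _ (List.append_inj_left' e2 rfl))
  subst hz
  rw [List.append_nil] at e
  have h1 : y.dropLast ++ [y.getLast hy] = y := List.dropLast_append_getLast hy
  have e2 : v ++ [c] = ((x ++ y) ++ y.dropLast) ++ [y.getLast hy] := by
    rw [List.append_assoc (x ++ y), h1, e]
    simp
  have hv' : v = (x ++ y) ++ y.dropLast := List.append_inj_left' e2 rfl
  have hy1 : 1 ≤ y.length := List.length_pos_iff.2 hy
  have hlen := congrArg List.length e
  simp only [List.length_append, List.length_singleton, hl] at hlen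
  refine ⟨(x ++ y).length, ?_, x ++ y, mem_S.2 ⟨?_, rfl⟩, ?_⟩
  · rw [Finset.mem_Icc, List.length_append]
    omega
  · rw [hv'] at hs
    exact hs.left
  · have h3 : 2 * (x ++ y).length - (k + 1) = x.length := by
      rw [List.length_append]
      omega
    rw [h3, List.drop_left, e]
    simp

theorem count (k : ℕ) : 4 * (S k).card ≤ (S (k + 1)).card + ∑ i ∈ Finset.Icc 1 k, (S i).card := by
  classical
  have h1 : ((S k ×ˢ (Finset.univ : Finset (Fin 4))).image
      (fun p => p.1 ++ [p.2])).card = 4 * (S k).card := by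
    rw [Finset.card_image_of_injOn, Finset.card_product, Finset.card_univ, Fintype.card_fin,
      Nat.mul_comm]
    rintro ⟨a, b⟩ - ⟨a', b'⟩ - h
    simp only at h
    have h1 := List.append_inj_left' h rfl
    have h2 := List.append_inj_right' h rfl
    simp only [List.cons.injEq, and_true] at h2
    rw [h1, h2]
  rw [← h1]
  calc _ ≤ (S (k + 1) ∪ (Finset.Icc 1 k).biUnion
        (fun i => (S i).image (fun u => u ++ u.drop (2 * i - (k + 1))))).card := by
        refine Finset.card_le_card ?_
        intro w hw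
        obtain ⟨⟨v, c⟩, hp, rfl⟩ := Finset.mem_image.1 hw
        rw [Finset.mem_product] at hp
        by_cases h : v ++ [c] ∈ S (k + 1)
        · exact Finset.mem_union_left _ h
        · obtain ⟨i, hi, u, hu, e⟩ := bad hp.1 h
          exact Finset.mem_union_right _ (Finset.mem_biUnion.2
            ⟨i, hi, Finset.mem_image.2 ⟨u, hu, e⟩⟩)
    _ ≤ (S (k + 1)).card + ((Finset.Icc 1 k).biUnion
        (fun i => (S i).image (fun u => u ++ u.drop (2 * i - (k + 1))))).card :=
        Finset.card_union_le _ _
    _ ≤ (S (k + 1)).card + ∑ i ∈ Finset.Icc 1 k,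
        ((S i).image (fun u => u ++ u.drop (2 * i - (k + 1)))).card :=
        Nat.add_le_add_left Finset.card_biUnion_le _
    _ ≤ _ := Nat.add_le_add_left (Finset.sum_le_sum fun i _ => Finset.card_image_le) _

theorem growth : ∀ k : ℕ, ∑ i ∈ Finset.Icc 1 k, (S i).card ≤ 2 * (S k).card ∧
    2 * (S k).card ≤ (S (k + 1)).card
  | 0 => by
    have h := count 0
    simp only [Finset.Icc_eq_empty_of_lt (Nat.zero_lt_one), Finset.sum_empty] at h ⊢
    omega
  | k + 1 => by
    have ih := growth k
    have h := count (k + 1)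
    have hs : ∑ i ∈ Finset.Icc 1 (k + 1), (S i).card =
        ∑ i ∈ Finset.Icc 1 k, (S i).card + (S (k + 1)).card :=
      Finset.sum_Icc_succ_top (by omega) _
    rw [hs] at h ⊢
    omega

end CountAux

theorem VV_card (m : ℕ) : 2 ^ m ≤ (VV m).ncard := by
  rw [← CountAux.card_S]
  induction m with
  | zero =>
    rw [pow_zero]
    exact Finset.card_pos.2 ⟨[], CountAux.mem_S.2 ⟨SqF_nil, rfl⟩⟩
  | succ m ih =>
    have := (CountAux.growth m).2
    rw [pow_succ]
    omega

end Q

end R686CG
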