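import Mathlib

/-! Definitions for MP_eff4ce_al (commuting graphs of bounded rank and unbounded girth). -/

namespace R686CG

/-- `w` contains no nonempty square. -/
def SqF {α : Type} (w : List α) : Prop := ∀ x y z : List α, w = x ++ (y ++ (y ++ z)) → y = []

/-- letters: `none` is the marker `#`. -/
abbrev Lt := Option (Fin 4)

/-- admissible words: `v` or `#v` with `v` square-free of length at most `m`. -/
def PP (m : ℕ) (w : List Lt) : Prop :=
  ∃ v : List (Fin 4), SqF v ∧ v.length ≤ m ∧ (w = v.map some ∨ w = none :: v.map some)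

/-- admissible words read backwards. -/
def PR (m : ℕ) (w : List Lt) : Prop := PP m w.reverse

/-- the words `#v` with `v` square-free of length exactly `m`. -/
def QQ (m : ℕ) (w : List Lt) : Prop :=
  ∃ v : List (Fin 4), SqF v ∧ v.length = m ∧ w = none :: v.map some

open Classical in
/-- the shortest prefix not in `P`, or the whole word when it is in `P`. -/
noncomputable def tr {α : Type} (P : List α → Prop) (w : List α) : List α :=
  w.foldl (fun acc c => if P acc then acc ++ [c] else acc) []

inductive X : Type
  | rc (r : List Lt) : X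
  | pt (w : List (Fin 4)) (p : Bool) : X
  | fn (p : Bool) (i : ℕ) : X

open Classical in
/-- the point of `X` reached from the start point with tag `t` by the word `u`. -/
noncomputable def nf (m : ℕ) (F : Bool → List (Fin 4) → ℕ) (u : List Lt) (t : Option Bool) : X :=
  match t with
  | none => X.rc (tr (PP m) u)
  | some p =>
    if (∃ v : List (Fin 4), SqF v ∧ v.length ≤ m ∧ u = v.map some) then X.pt u.reduceOption p
    else if QQ m u then X.fn p (F p u.reduceOption)
    else X.rc (tr (PP m) u)

def rep : X → List Lt
  | X.rc r => r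
  | X.pt w _ => w.map some
  | X.fn _ _ => [none]

def tg : X → Option Bool
  | X.rc _ => none
  | X.pt _ p => some p
  | X.fn _ _ => none

/-- pairs of a left action and a right action. -/
@[ext] structure M : Type where
  f : X → X
  h : List Lt → List Lt

instance : Monoid M where
  mul s t := ⟨s.f ∘ t.f, t.h ∘ s.h⟩
  one := ⟨id, id⟩
  mul_assoc _ _ _ := rfl
  one_mul _ := rfl
  mul_one _ := rfl

@[simp] theorem mul_f (s t : M) (x : X) : (s * t).f x = s.f (t.f x) := rfl
@[simp] theorem mul_h (s t : M) (r : List Lt) : (s * t).h r = t.h (s.h r) := rfl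
@[simp] theorem one_f (x : X) : (1 : M).f x = x := rfl
@[simp] theorem one_h (r : List Lt) : (1 : M).h r = r := rfl

/-- the letter generators. -/
noncomputable def ell (m : ℕ) (F : Bool → List (Fin 4) → ℕ) (c : Lt) : M :=
  ⟨fun x => nf m F (c :: rep x) (tg x), fun r => tr (PR m) (c :: r)⟩

/-- the element of the word `v`. -/
noncomputable def W (m : ℕ) (F : Bool → List (Fin 4) → ℕ) (v : List Lt) : M :=
  (v.map (ell m F)).prod

/-- the generator `d`. -/
def dd : M := ⟨fun x => match x with | X.fn p _ => X.pt [] p | _ => X.rc [], fun _ => []⟩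

/-- the constants. -/
def kk (x : X) (r : List Lt) : M := ⟨fun _ => x, fun _ => r⟩

/-- `w d w'`. -/
noncomputable def D (m : ℕ) (F : Bool → List (Fin 4) → ℕ) (w w' : List Lt) : M :=
  W m F w * dd * W m F w'

/-- the eight generators. -/
noncomputable def gens (m : ℕ) (F : Bool → List (Fin 4) → ℕ) : Set M :=
  Set.range (ell m F) ∪ {dd, kk (X.pt [] true) [], kk (X.pt [] false) []}

/-- the semigroup. -/
noncomputable def SS (m : ℕ) (F : Bool → List (Fin 4) → ℕ) : Subsemigroup M :=
  Subsemigroup.closure (gens m F)

/-- square-free words of length `m`. -/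
def VV (m : ℕ) : Set (List (Fin 4)) := {v | SqF v ∧ v.length = m}

def PrefCl {α : Type} (P : List α → Prop) : Prop := ∀ u v, P (u ++ v) → P u
def SufCl {α : Type} (P : List α → Prop) : Prop := ∀ u v, P (u ++ v) → P v

/-- a set of vertices in which every vertex has two distinct neighbours inside the set -/
def TwoClosed {V : Type} (G : SimpleGraph V) (C : Set V) : Prop :=
  ∀ x ∈ C, ∃ y ∈ C, ∃ z ∈ C, y ≠ z ∧ G.Adj x y ∧ G.Adj x z

/-- index maps: `n` is half of the number of edges on the cycle. -/
def Fa (i : ℕ) : ℕ := i / 2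
def Fb (n i : ℕ) : ℕ := if i + 1 = 2 * n then 0 else (i + 1) / 2

/-- `S` on which `idx` is injective with range `[0,N)`. -/
def FF (n : ℕ) (idx : List (Fin 4) → ℕ) (p : Bool) (z : List (Fin 4)) : ℕ :=
  if p then Fa (idx z) else Fb n (idx z)

/-- the commuting relation graph on the elements of `SS` (all of them are noncentral). -/
def CG (m : ℕ) (F : Bool → List (Fin 4) → ℕ) : SimpleGraph (SS m F) where
  Adj s t := s ≠ t ∧ s * t = t * s
  symm := ⟨fun _ _ h => ⟨h.1.symm, h.2.symm⟩⟩
  loopless := ⟨fun _ h => h.1 rfl⟩

end R686CG
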