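import Pool.Agent.R686.CG.Defs

/-! Piece G: graph theory. -/

namespace R686CG

section G
variable {V : Type} (G : SimpleGraph V)

theorem cycle_twoClosed {a : V} (w : G.Walk a a) (hw : w.IsCycle) :
    ∃ C : Finset V, C.Nonempty ∧ C.card ≤ w.length ∧ TwoClosed G (C : Set V) := by
  classical
  refine ⟨w.support.toFinset, ⟨a, by simp⟩, ?_, ?_⟩
  · have h1 : w.support.toFinset ⊆ w.support.tail.toFinset := by
      intro x hx
      rw [List.mem_toFinset] at hx ⊢
      rw [← SimpleGraph.Walk.cons_tail_support] at hx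
      rcases List.mem_cons.1 hx with h | h
      · rw [h]
        exact SimpleGraph.Walk.end_mem_tail_support hw.not_nil
      · exact h
    calc w.support.toFinset.card ≤ w.support.tail.toFinset.card := Finset.card_le_card h1
      _ ≤ w.support.tail.length := List.toFinset_card_le _
      _ = w.length := by rw [List.length_tail, SimpleGraph.Walk.length_support]; omega
  · intro x hx
    rw [Finset.mem_coe, List.mem_toFinset] at hx
    have h2 := hw.ncard_neighborSet_toSubgraph_eq_two hx
    obtain ⟨y, z, hyz, hset⟩ := Set.ncard_eq_two.1 h2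
    have hy : w.toSubgraph.Adj x y := by
      have : y ∈ w.toSubgraph.neighborSet x := by rw [hset]; simp
      exact this
    have hz : w.toSubgraph.Adj x z := by
      have : z ∈ w.toSubgraph.neighborSet x := by rw [hset]; simp
      exact this
    refine ⟨y, ?_, z, ?_, hyz, hy.adj_sub, hz.adj_sub⟩
    · rw [Finset.mem_coe, List.mem_toFinset, ← SimpleGraph.Walk.mem_verts_toSubgraph]
      exact hy.snd_mem
    · rw [Finset.mem_coe, List.mem_toFinset, ← SimpleGraph.Walk.mem_verts_toSubgraph]
      exact hz.snd_mem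

/-- a closed chain `E 0 - A 0 - E 1 - B 1 - E 2 - A 1 - ... - E (2n-1) - B 0 - E 0`. -/
theorem not_acyclic {n : ℕ} (hn : 1 ≤ n) (E A B : ℕ → V)
    (hE : ∀ i j, i < 2 * n → j < 2 * n → E i = E j → i = j)
    (hEA : ∀ i j, i < 2 * n → j < n → E i ≠ A j) (hEB : ∀ i j, i < 2 * n → j < n → E i ≠ B j)
    (hB : ∀ i j, i < n → j < n → B i = B j → i = j) (hAB : ∀ i j, i < n → j < n → A i ≠ B j)
    (adjA : ∀ i, i < 2 * n → G.Adj (E i) (A (Fa i)))
    (adjB : ∀ i, i < 2 * n → G.Adj (E i) (B (Fb n i))) : ¬ G.IsAcyclic := by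
  intro hac
  have h0 : Fb n 0 = 0 := by
    unfold Fb
    split_ifs <;> rfl
  have hadj0 : G.Adj (E 0) (B 0) := by
    have := adjB 0 (by omega)
    rwa [h0] at this
  have hbr := SimpleGraph.isAcyclic_iff_forall_adj_isBridge.1 hac hadj0
  rw [SimpleGraph.isBridge_iff] at hbr
  apply hbr
  have eA : ∀ i j, i < 2 * n → j < n → G.Adj (E i) (A j) →
      (G.deleteEdges {s(E 0, B 0)}).Adj (E i) (A j) := by
    intro i j hi hj h
    rw [SimpleGraph.deleteEdges_adj]
    refine ⟨h, ?_⟩
    rw [Set.mem_singleton_iff, Sym2.eq_iff]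
    rintro (⟨_, h2⟩ | ⟨h1, _⟩)
    · exact hAB j 0 hj (by omega) h2
    · exact hEB i 0 hi (by omega) h1
  have eB : ∀ i j, i < 2 * n → j < n → (i ≠ 0 ∨ j ≠ 0) → G.Adj (E i) (B j) →
      (G.deleteEdges {s(E 0, B 0)}).Adj (E i) (B j) := by
    intro i j hi hj hne h
    rw [SimpleGraph.deleteEdges_adj]
    refine ⟨h, ?_⟩
    rw [Set.mem_singleton_iff, Sym2.eq_iff]
    rintro (⟨h1, h2⟩ | ⟨h1, _⟩)
    · have e1 := hE i 0 hi (by omega) h1
      have e2 := hB j 0 hj (by omega) h2
      rcases hne with h | h
      · exact h e1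
      · exact h e2
    · exact hEB i 0 hi (by omega) h1
  have hreach : ∀ i, i < 2 * n → (G.deleteEdges {s(E 0, B 0)}).Reachable (E 0) (E i) := by
    intro i
    induction i with
    | zero => intro _; exact SimpleGraph.Reachable.refl _
    | succ i ih =>
      intro hi
      refine (ih (by omega)).trans ?_
      rcases Nat.even_or_odd' i with ⟨k, rfl | rfl⟩
      · have f1 : Fa (2 * k) = k := by unfold Fa; omega
        have f2 : Fa (2 * k + 1) = k := by unfold Fa; omega
        have a1 := adjA (2 * k) (by omega)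
        have a2 := adjA (2 * k + 1) hi
        rw [f1] at a1
        rw [f2] at a2
        exact (eA _ _ (by omega) (by omega) a1).reachable.trans
          (eA _ _ hi (by omega) a2).reachable.symm
      · have f1 : Fb n (2 * k + 1) = k + 1 := by
          unfold Fb
          rw [if_neg (by omega)]
          omega
        have f2 : Fb n (2 * k + 1 + 1) = k + 1 := by
          unfold Fb
          rw [if_neg (by omega)]
          omega
        have a1 := adjB (2 * k + 1) (by omega)
        have a2 := adjB (2 * k + 1 + 1) hi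
        rw [f1] at a1
        rw [f2] at a2
        exact (eB _ _ (by omega) (by omega) (by omega) a1).reachable.trans
          (eB _ _ hi (by omega) (by omega) a2).reachable.symm
  have hl := adjB (2 * n - 1) (by omega)
  have f3 : Fb n (2 * n - 1) = 0 := by
    unfold Fb
    rw [if_pos (by omega)]
  rw [f3] at hl
  exact (hreach (2 * n - 1) (by omega)).trans
    (eB _ _ (by omega) (by omega) (by omega) hl).reachable

end G

end R686CG
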