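import Pool.Agent.R686.CG.Defs

/-! MP_eff4ce_al, piece I: index combinatorics. -/

set_option autoImplicit false

namespace R686CG

section I

theorem idx_all {n N : ℕ} (hn : 1 ≤ n) (h1 : 2 * n ≤ N) (h2 : N ≤ 2 * n + 1) {I : Set ℕ}
    (hI : ∀ i ∈ I, i < N) (hne : I.Nonempty)
    (ha : ∀ i ∈ I, ∃ j ∈ I, j ≠ i ∧ Fa j = Fa i) (hb : ∀ i ∈ I, ∃ j ∈ I, j ≠ i ∧ Fb n j = Fb n i) :
    ∀ j < 2 * n, j ∈ I := by
  have lt : ∀ i ∈ I, i < 2 * n := by
    intro i hi
    by_contra hcon
    have h3 := hI i hi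
    obtain ⟨j, hj, hji, hF⟩ := ha i hi
    have h4 := hI j hj
    unfold Fa at hF
    omega
  have succ : ∀ i ∈ I, i + 1 < 2 * n → i + 1 ∈ I := by
    intro i hi hlt
    rcases Nat.even_or_odd' i with ⟨k, hk | hk⟩
    · obtain ⟨j, hj, hji, hF⟩ := ha i hi
      unfold Fa at hF
      have : j = i + 1 := by omega
      rwa [← this]
    · obtain ⟨j, hj, hji, hF⟩ := hb i hi
      unfold Fb at hF
      rw [if_neg (by omega : ¬ i + 1 = 2 * n)] at hF
      have : j = i + 1 := by
        by_cases h3 : j + 1 = 2 * n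
        · rw [if_pos h3] at hF
          omega
        · rw [if_neg h3] at hF
          omega
      rwa [← this]
  have zero : 2 * n - 1 ∈ I → 0 ∈ I := by
    intro hi
    obtain ⟨j, hj, hji, hF⟩ := hb _ hi
    unfold Fb at hF
    rw [if_pos (by omega : 2 * n - 1 + 1 = 2 * n)] at hF
    have : j = 0 := by
      by_cases h3 : j + 1 = 2 * n
      · omega
      · rw [if_neg h3] at hF
        omega
    rwa [← this]
  have up : ∀ i ∈ I, ∀ k, i + k < 2 * n → i + k ∈ I := by
    intro i hi k
    induction k with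
    | zero => intro _; exact hi
    | succ k ih =>
      intro hk
      have := succ (i + k) (ih (by omega)) (by omega)
      rwa [Nat.add_assoc] at this
  obtain ⟨i0, hi0⟩ := hne
  have hlt0 := lt i0 hi0
  have hlast : 2 * n - 1 ∈ I := by
    have := up i0 hi0 (2 * n - 1 - i0) (by omega)
    have h3 : i0 + (2 * n - 1 - i0) = 2 * n - 1 := by omega
    rwa [h3] at this
  have h0 := zero hlast
  intro j hj
  have := up 0 h0 j (by omega)
  rwa [Nat.zero_add] at this

end I

end R686CG
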