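import Pool.Agent.R686.CG.Defs
import Pool.Agent.R686.CG.Trunc
import Pool.Agent.R686.CG.PCl
import Pool.Agent.R686.CG.Act
import Pool.Agent.R686.CG.Class
import Pool.Agent.R686.CG.Comm1
import Pool.Agent.R686.CG.Comm2
import Pool.Agent.R686.CG.Core
import Pool.Agent.R686.CG.Idx
import Pool.Agent.R686.CG.Gr
import Pool.Agent.R686.CG.Count

set_option autoImplicit false

namespace R686CG

section Z

theorem exists_idx (m : ℕ) : ∃ (idx : List (Fin 4) → ℕ) (zz : ℕ → List (Fin 4)),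
    (∀ z ∈ VV m, idx z < (VV m).ncard) ∧
    (∀ z ∈ VV m, zz (idx z) = z) ∧
    (∀ i < (VV m).ncard, zz i ∈ VV m ∧ idx (zz i) = i) := by
  classical
  have : Finite (VV m) := (VV_fin m).to_subtype
  let e : VV m ≃ Fin (VV m).ncard :=
    Finite.equivFinOfCardEq (Nat.card_coe_set_eq (VV m))
  refine ⟨fun z => if h : z ∈ VV m then (e ⟨z, h⟩ : ℕ) else 0,
    fun i => if h : i < (VV m).ncard then (e.symm ⟨i, h⟩ : List (Fin 4)) else [], ?_, ?_, ?_⟩
  · intro z hz
    simp only [dif_pos hz]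
    exact (e ⟨z, hz⟩).2
  · intro z hz
    simp only [dif_pos hz, (e ⟨z, hz⟩).2, dite_true, Fin.eta, Equiv.symm_apply_apply]
  · intro i hi
    simp only [dif_pos hi]
    refine ⟨(e.symm ⟨i, hi⟩).2, ?_⟩
    rw [dif_pos (e.symm ⟨i, hi⟩).2]
    simp

/-- the graph for a given `m ≥ 2`, with a suitable `F`. -/
theorem final (g : ℕ) : ∃ (m : ℕ) (F : Bool → List (Fin 4) → ℕ),
    ¬ (CG m F).IsAcyclic ∧ g ≤ (CG m F).girth := by
  classical
  obtain ⟨idx, zz, hidx, hzz, hzi⟩ := exists_idx (g + 1)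
  obtain ⟨m, hm⟩ : ∃ m, m = g + 1 := ⟨_, rfl⟩
  rw [← hm] at hidx hzz hzi
  obtain ⟨N, hN⟩ : ∃ N, N = (VV m).ncard := ⟨_, rfl⟩
  rw [← hN] at hidx hzi
  have hNm : 2 ^ m ≤ N := hN ▸ VV_card m
  obtain ⟨n, hn⟩ : ∃ n, n = N / 2 := ⟨_, rfl⟩
  have h1 : 2 * n ≤ N := by omega
  have h2 : N ≤ 2 * n + 1 := by omega
  have hgn : g + 1 ≤ n := by
    have h3 : g < 2 ^ g := Nat.lt_two_pow_self
    have h4 : 2 ^ m = 2 * 2 ^ g := by rw [hm, pow_succ]; ring
    omega
  have hn1 : 1 ≤ n := by omega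
  obtain ⟨F, hF⟩ : ∃ F : Bool → List (Fin 4) → ℕ, F = FF n idx := ⟨_, rfl⟩
  have hFt : ∀ z, F true z = Fa (idx z) := fun z => by rw [hF]; simp [FF]
  have hFf : ∀ z, F false z = Fb n (idx z) := fun z => by rw [hF]; simp [FF]
  have hFa2 : ∀ i < n, F true (zz (2 * i)) = i := fun i hi => by
    rw [hFt, (hzi (2 * i) (by omega)).2]; unfold Fa; omega
  have hFb2 : ∀ i < n, F false (zz (2 * i)) = i := fun i hi => by
    rw [hFf, (hzi (2 * i) (by omega)).2]; unfold Fb; rw [if_neg (by omega)]; omega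
  have hKm : ∀ p : Bool, ∀ i < n, kk (X.fn p i) [] ∈ SS m F := by
    intro p i hi
    have hz := (hzi (2 * i) (by omega)).1
    have h3 := K_mem m F hz p
    have h4 : F p (zz (2 * i)) = i := by
      cases p
      · exact hFb2 i hi
      · exact hFa2 i hi
    rwa [h4] at h3
  let d0 : SS m F := ⟨D m F [] [], D_mem m F [] []⟩
  let E : ℕ → SS m F := fun i => ⟨D m F (none :: (zz i).map some) [], D_mem m F _ _⟩
  let K : Bool → ℕ → SS m F := fun p i =>
    if h : i < n then ⟨kk (X.fn p i) [], hKm p i h⟩ else d0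
  have hK : ∀ p, ∀ i < n, (K p i : M) = kk (X.fn p i) [] := by
    intro p i hi
    simp only [K, dif_pos hi]
  have hEK : ∀ i < 2 * n, ∀ p, ∀ j < n, E i ≠ K p j := by
    intro i hi p j hj h
    have h3 := congrArg (fun s : SS m F => (s : M)) h
    simp only [hK p j hj] at h3
    exact D_ne_K m F (hzi i (by omega)).1 _ _ h3
  have hKK : ∀ p p' i j, i < n → j < n → K p i = K p' j → p = p' ∧ i = j := by
    intro p p' i j hi hj h
    have h3 := congrArg (fun s : SS m F => (s : M)) h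
    simp only [hK p i hi, hK p' j hj] at h3
    have h4 := congrArg (fun s : M => s.f (X.rc [])) h3
    simpa [kk] using h4
  have hadj : ∀ i < 2 * n, ∀ p, ∀ j < n, F p (zz i) = j → (CG m F).Adj (E i) (K p j) := by
    intro i hi p j hj hF'
    refine ⟨hEK i hi p j hj, ?_⟩
    apply Subtype.ext
    have h3 := comm_edge m F (hzi i (by omega)).1 p
    rw [hF', ← hK p j hj] at h3
    exact h3
  have hna : ¬ (CG m F).IsAcyclic := by
    refine not_acyclic (CG m F) hn1 E (K true) (K false) ?_ ?_ ?_ ?_ ?_ ?_ ?_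
    · intro i j hi hj h
      have h3 := congrArg (fun s : SS m F => (s : M)) h
      have h4 := D_inj m F (hzi i (by omega)).1 (hzi j (by omega)).1 h3
      rw [← (hzi i (by omega)).2, ← (hzi j (by omega)).2, h4]
    · intro i j hi hj; exact hEK i hi true j hj
    · intro i j hi hj; exact hEK i hi false j hj
    · intro i j hi hj h; exact (hKK _ _ _ _ hi hj h).2
    · intro i j hi hj h; exact absurd (hKK _ _ _ _ hi hj h).1 (by decide)
    · intro i hi
      apply hadj i hi true (Fa i) (by unfold Fa; omega)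
      rw [hFt, (hzi i (by omega)).2]
    · intro i hi
      apply hadj i hi false (Fb n i)
      · unfold Fb; split_ifs <;> omega
      · rw [hFf, (hzi i (by omega)).2]
  refine ⟨m, F, hna, ?_⟩
  obtain ⟨a, w, hw, hgw⟩ := SimpleGraph.exists_girth_eq_length.mpr hna
  rw [hgw]
  obtain ⟨C, hCne, hCc, hC2⟩ := cycle_twoClosed (CG m F) w hw
  obtain ⟨hc1, hc2⟩ := core m F hC2 (by simpa using hCne)
  refine le_trans ?_ hCc
  let I : Set ℕ := {i | ∃ z ∈ VV m, idx z = i ∧
    ∃ s ∈ (C : Set (SS m F)), (s : M) = D m F (none :: z.map some) []}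
  have hI : ∀ j < 2 * n, j ∈ I := by
    apply idx_all hn1 h1 h2
    · rintro i ⟨z, hz, rfl, -⟩
      exact hidx z hz
    · obtain ⟨z, hz, s, hs, hs'⟩ := hc1
      exact ⟨idx z, z, hz, rfl, s, hs, hs'⟩
    · rintro i ⟨z, hz, rfl, s, hs, hs'⟩
      obtain ⟨z', hz', hne, hFz, hs''⟩ := hc2 z hz ⟨s, hs, hs'⟩ true
      refine ⟨idx z', ⟨z', hz', rfl, hs''⟩, ?_, ?_⟩
      · intro h; apply hne; rw [← hzz z' hz', h, hzz z hz]
      · rwa [hFt, hFt] at hFz
    · rintro i ⟨z, hz, rfl, s, hs, hs'⟩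
      obtain ⟨z', hz', hne, hFz, hs''⟩ := hc2 z hz ⟨s, hs, hs'⟩ false
      refine ⟨idx z', ⟨z', hz', rfl, hs''⟩, ?_, ?_⟩
      · intro h; apply hne; rw [← hzz z' hz', h, hzz z hz]
      · rwa [hFf, hFf] at hFz
  have hI' : ∀ j, ∃ (z : List (Fin 4)) (s : SS m F), j < 2 * n → z ∈ VV m ∧ idx z = j ∧
      s ∈ C ∧ (s : M) = D m F (none :: z.map some) [] := by
    intro j
    by_cases hj : j < 2 * n
    · obtain ⟨z, hz, hzj, s, hs, hsD⟩ := hI j hj
      exact ⟨z, s, fun _ => ⟨hz, hzj, hs, hsD⟩⟩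
    · exact ⟨[], d0, fun h => absurd h hj⟩
  choose z s hzs using hI'
  have hcard : (Finset.range (2 * n)).card ≤ C.card := by
    apply Finset.card_le_card_of_injOn s
    · intro j hj
      exact (hzs j (by simpa using hj)).2.2.1
    · intro i hi j hj hij
      have hi' : i < 2 * n := by simpa using hi
      have hj' : j < 2 * n := by simpa using hj
      have h3 := congrArg (fun s : SS m F => (s : M)) hij
      simp only [(hzs i hi').2.2.2, (hzs j hj').2.2.2] at h3
      have h4 := D_inj m F (hzs i hi').1 (hzs j hj').1 h3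
      rw [← (hzs i hi').2.1, ← (hzs j hj').2.1, h4]
  rw [Finset.card_range] at hcard
  omega
end Z

end R686CG
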