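import Pool.Agent.R686.CG.Defs

/-! statements (with sorry) of all the pieces; do NOT import this file, copy the statements. -/

namespace R686CG

/-! ## Piece T (file Trunc.lean) : truncation -/
section T
variable {α : Type} {P : List α → Prop}
theorem tr_of (h : PrefCl P) {v : List α} (hv : P v) : tr P v = v := sorry
theorem tr_prefix (v : List α) : tr P v <+: v := sorry
theorem tr_not (h : PrefCl P) {v : List α} (hv : ¬ P v) : ¬ P (tr P v) := sorry
theorem tr_append (h : PrefCl P) {v : List α} (hv : ¬ P v) (r : List α) : tr P (v ++ r) = tr P v := sorry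
theorem tr_cons_tr (h : PrefCl P) (h' : SufCl P) (c : α) (v : List α) :
    tr P (c :: tr P v) = tr P (c :: v) := sorry
/-- proper prefixes of the truncation are in `P` -/
theorem tr_proper (h : PrefCl P) (v x : List α) (c : α) (hx : x ++ [c] <+: tr P v) : P x := sorry
/-- the truncation of `v` (not in `P`) is longer than every prefix of `v` lying in `P` -/
theorem le_tr (h : PrefCl P) {u v : List α} (hu : P u) (huv : u <+: v) : u <+: tr P v := sorry
end T

/-! ## Piece P (file PCl.lean) : the predicates -/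
section Pc
theorem SqF_nil {α : Type} : SqF ([] : List α) := sorry
theorem SqF.left {α : Type} {u v : List α} (h : SqF (u ++ v)) : SqF u := sorry
theorem SqF.right {α : Type} {u v : List α} (h : SqF (u ++ v)) : SqF v := sorry
theorem SqF.map {α β : Type} {f : α → β} (hf : Function.Injective f) {u : List α} (h : SqF u) :
    SqF (u.map f) := sorry
theorem PP_nil (m : ℕ) : PP m [] := sorry
theorem PR_nil (m : ℕ) : PR m [] := sorry
theorem PP_pref (m : ℕ) : PrefCl (PP m) := sorry
theorem PP_suf (m : ℕ) : SufCl (PP m) := sorry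
theorem PR_pref (m : ℕ) : PrefCl (PR m) := sorry
theorem PR_suf (m : ℕ) : SufCl (PR m) := sorry
theorem PP_SqF {m : ℕ} {w : List Lt} (h : PP m w) : SqF w := sorry
theorem PP_len {m : ℕ} {w : List Lt} (h : PP m w) : w.length ≤ m + 1 := sorry
theorem QQ_PP {m : ℕ} {w : List Lt} (h : QQ m w) : PP m w := sorry
theorem not_PP_cn (m : ℕ) (c : Lt) (r : List Lt) : ¬ PP m (c :: none :: r) := sorry
theorem PP_fin (m : ℕ) : {w : List Lt | PP m w}.Finite := sorry
theorem VV_fin (m : ℕ) : (VV m).Finite := sorry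
end Pc

/-! ## Piece A (file Act.lean) : the actions (uses T, P) -/
section A
variable (m : ℕ) (F : Bool → List (Fin 4) → ℕ)
theorem nf_none (u : List Lt) : nf m F u none = X.rc (tr (PP m) u) := sorry
theorem nf_pt {v : List (Fin 4)} (h : SqF v) (hl : v.length ≤ m) (p : Bool) :
    nf m F (v.map some) (some p) = X.pt v p := sorry
theorem nf_fn {v : List (Fin 4)} (h : SqF v) (hl : v.length = m) (p : Bool) :
    nf m F (none :: v.map some) (some p) = X.fn p (F p v) := sorry
theorem nf_short {v : List (Fin 4)} (h : SqF v) (hl : v.length < m) (p : Bool) :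
    nf m F (none :: v.map some) (some p) = X.rc (none :: v.map some) := sorry
theorem nf_not {u : List Lt} (h : ¬ PP m u) (t : Option Bool) :
    nf m F u t = X.rc (tr (PP m) u) := sorry
theorem nf_step (c : Lt) (u : List Lt) (t : Option Bool) :
    nf m F (c :: rep (nf m F u t)) (tg (nf m F u t)) = nf m F (c :: u) t := sorry
theorem W_nil : W m F [] = 1 := sorry
theorem W_append (u v : List Lt) : W m F (u ++ v) = W m F u * W m F v := sorry
theorem W_f {v : List Lt} (hv : v ≠ []) (x : X) :
    (W m F v).f x = nf m F (v ++ rep x) (tg x) := sorry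
theorem W_f_nf (v u : List Lt) (t : Option Bool) :
    (W m F v).f (nf m F u t) = nf m F (v ++ u) t := sorry
theorem W_h {v : List Lt} (hv : v ≠ []) (r : List Lt) :
    (W m F v).h r = tr (PR m) (v.reverse ++ r) := sorry
theorem W_h_tr (v r : List Lt) :
    (W m F v).h (tr (PR m) r) = tr (PR m) (v.reverse ++ r) := sorry
theorem W_not {v : List Lt} (hv : ¬ PP m v) :
    W m F v = kk (X.rc (tr (PP m) v)) (tr (PR m) v.reverse) := sorry
theorem kk_mul (x : X) (r : List Lt) (s : M) : kk x r * s = kk x (s.h r) := sorry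
theorem mul_kk (x : X) (r : List Lt) (s : M) : s * kk x r = kk (s.f x) r := sorry
theorem dWd_Q {z : List Lt} (hz : QQ m z) : dd * W m F z * dd = dd := sorry
theorem dWd_not {z : List Lt} (hz : ¬ QQ m z) : dd * W m F z * dd = kk (X.rc []) [] := sorry
end A

/-! ## Piece C (file Class.lean) : classification and finiteness (uses T, P, A) -/
section C
variable (m : ℕ) (F : Bool → List (Fin 4) → ℕ)
theorem classify {s : M} (hs : s ∈ SS m F) :
    (∃ v, v ≠ [] ∧ PP m v ∧ s = W m F v) ∨
    (∃ w w', PP m w ∧ PP m w' ∧ s = D m F w w') ∨ (∃ x r, s = kk x r) := sorry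
theorem W_mem {v : List Lt} (hv : v ≠ []) : W m F v ∈ SS m F := sorry
theorem D_mem (w w' : List Lt) : D m F w w' ∈ SS m F := sorry
theorem SS_finite : (SS m F : Set M).Finite := sorry
theorem gens_card : (gens m F).Finite ∧ (gens m F).ncard ≤ 8 := sorry
end C

/-! ## Piece N1 (file Comm1.lean) : words never commute (uses T, P, A) -/
section N1
variable (m : ℕ) (F : Bool → List (Fin 4) → ℕ)
/-- two nonempty commuting words contain a square -/
theorem comm_square {α : Type} {u x : List α} (hu : u ≠ []) (hx : x ≠ []) (h : u ++ x = x ++ u) :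
    ¬ SqF (u ++ x) := sorry
theorem comm_WW {u v : List Lt} (hu : u ≠ []) (hv : v ≠ []) (pu : PP m u) (pv : PP m v)
    (h : W m F u * W m F v = W m F v * W m F u) : u = v := sorry
end N1

/-! ## Piece N2 (file Comm2.lean) : the other commutations (uses T, P, A) -/
section N2
variable (m : ℕ) (F : Bool → List (Fin 4) → ℕ)
theorem comm_WD {u w w' : List Lt} (hu : u ≠ []) (pw : PP m w) (pw' : PP m w') :
    W m F u * D m F w w' ≠ D m F w w' * W m F u := sorry
theorem comm_DD {u u' w w' : List Lt} (pu : PP m u) (pu' : PP m u') (pw : PP m w) (pw' : PP m w')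
    (h : D m F u u' * D m F w w' = D m F w w' * D m F u u') : u = w ∧ u' = w' := sorry
theorem comm_WK {u : List Lt} (hu : u ≠ []) (pu : PP m u) {x : X} {r : List Lt}
    (h : W m F u * kk x r = kk x r * W m F u) :
    x = X.rc (tr (PP m) (u ++ u)) ∧ r = tr (PR m) (u ++ u).reverse := sorry
theorem comm_DK {w w' : List Lt} (pw : PP m w) (pw' : PP m w') {x : X} {r : List Lt}
    (h : D m F w w' * kk x r = kk x r * D m F w w') :
    r = w'.reverse ∧ (x = X.rc w ∨ (QQ m (w' ++ w) ∧ ∃ p : Bool, x = nf m F w (some p))) := sorry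
theorem comm_KK {x y : X} {r s : List Lt} (h : kk x r * kk y s = kk y s * kk x r) :
    x = y ∧ r = s := sorry
/-- the edges of the cycle -/
theorem comm_edge {z : List (Fin 4)} (hz : z ∈ VV m) (p : Bool) :
    D m F (none :: z.map some) [] * kk (X.fn p (F p z)) [] =
      kk (X.fn p (F p z)) [] * D m F (none :: z.map some) [] := sorry
theorem K_mem {z : List (Fin 4)} (hz : z ∈ VV m) (p : Bool) : kk (X.fn p (F p z)) [] ∈ SS m F := sorry
theorem D_inj {z z' : List (Fin 4)} (hz : z ∈ VV m) (hz' : z' ∈ VV m)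
    (h : D m F (none :: z.map some) [] = D m F (none :: z'.map some) []) : z = z' := sorry
theorem D_ne_K {z : List (Fin 4)} (hz : z ∈ VV m) (x : X) (r : List Lt) :
    D m F (none :: z.map some) [] ≠ kk x r := sorry
/-- the centre is empty -/
theorem no_center (s : SS m F) : ∃ t : SS m F, s * t ≠ t * s := sorry
end N2

/-! ## Piece S (file Core.lean) : two-closed sets of the commuting graph
(uses classify, comm_WW, comm_WD, comm_DD, comm_WK, comm_DK, comm_KK, nf_*) -/
section S
variable (m : ℕ) (F : Bool → List (Fin 4) → ℕ)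
theorem core {C : Set (SS m F)} (hC : TwoClosed (CG m F) C) (hne : C.Nonempty) :
    (∃ z ∈ VV m, ∃ s ∈ C, (s : M) = D m F (none :: z.map some) []) ∧
    (∀ z ∈ VV m, (∃ s ∈ C, (s : M) = D m F (none :: z.map some) []) → ∀ p : Bool,
      ∃ z' ∈ VV m, z' ≠ z ∧ F p z' = F p z ∧
        ∃ s ∈ C, (s : M) = D m F (none :: z'.map some) []) := sorry
end S

/-! ## Piece I (file Idx.lean) : index combinatorics, no dependence -/
section I
theorem idx_all {n N : ℕ} (hn : 1 ≤ n) (h1 : 2 * n ≤ N) (h2 : N ≤ 2 * n + 1) {I : Set ℕ}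
    (hI : ∀ i ∈ I, i < N) (hne : I.Nonempty)
    (ha : ∀ i ∈ I, ∃ j ∈ I, j ≠ i ∧ Fa j = Fa i) (hb : ∀ i ∈ I, ∃ j ∈ I, j ≠ i ∧ Fb n j = Fb n i) :
    ∀ j < 2 * n, j ∈ I := sorry
end I

/-! ## Piece G (file Gr.lean) : graph theory, no dependence -/
section G
variable {V : Type} (G : SimpleGraph V)
theorem cycle_twoClosed {a : V} (w : G.Walk a a) (hw : w.IsCycle) :
    ∃ C : Finset V, C.Nonempty ∧ C.card ≤ w.length ∧ TwoClosed G (C : Set V) := sorry
/-- a closed chain `E 0 - A 0 - E 1 - B 1 - E 2 - A 1 - ... - E (2n-1) - B 0 - E 0`. -/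
theorem not_acyclic {n : ℕ} (hn : 1 ≤ n) (E A B : ℕ → V)
    (hE : ∀ i j, i < 2 * n → j < 2 * n → E i = E j → i = j)
    (hEA : ∀ i j, i < 2 * n → j < n → E i ≠ A j) (hEB : ∀ i j, i < 2 * n → j < n → E i ≠ B j)
    (hB : ∀ i j, i < n → j < n → B i = B j → i = j) (hAB : ∀ i j, i < n → j < n → A i ≠ B j)
    (adjA : ∀ i, i < 2 * n → G.Adj (E i) (A (Fa i)))
    (adjB : ∀ i, i < 2 * n → G.Adj (E i) (B (Fb n i))) : ¬ G.IsAcyclic := sorry
end G

/-! ## Piece Q (file Count.lean) : many square-free words -/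
section Q
theorem VV_card (m : ℕ) : 2 ^ m ≤ (VV m).ncard := sorry
end Q

/-! ## Piece Z (file Fin.lean) : assembly; uses everything -/
section Z
/-- the graph for a given `m ≥ 2`, with a suitable `F`. -/
theorem final (g : ℕ) : ∃ (m : ℕ) (F : Bool → List (Fin 4) → ℕ),
    ¬ (CG m F).IsAcyclic ∧ g ≤ (CG m F).girth := sorry
end Z

end R686CG
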